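import Mathlib
import Pool.Agent.Helper11.AADefs

/-!
Correlated pairs on the cube: weights, derivative in the correlation, flips.
-/

set_option linter.dupNamespace false

namespace Pool.Agent.QRA

open Finset Pool.Agent.Helper11.Cube

/-- sign of a coordinate as a real number -/
def sg {n : ℕ} (x : Cube n) (j : Fin n) : ℝ := ((x j : ℤ) : ℝ)

/-- flip one coordinate -/
def fl {n : ℕ} (j : Fin n) (x : Cube n) : Cube n := flipOn {j} x

lemma sg_sq {n : ℕ} (x : Cube n) (j : Fin n) : sg x j * sg x j = 1 := unit_sq _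

lemma fl_fl {n : ℕ} (j : Fin n) (x : Cube n) : fl j (fl j x) = x := by
  funext i
  unfold fl flipOn
  by_cases h : i ∈ ({j} : Finset (Fin n)) <;> simp [h]

lemma fl_comm {n : ℕ} (i j : Fin n) (x : Cube n) : fl i (fl j x) = fl j (fl i x) := by
  funext k
  unfold fl flipOn
  by_cases h : k ∈ ({i} : Finset (Fin n)) <;> by_cases h' : k ∈ ({j} : Finset (Fin n)) <;>
    simp [h, h']

lemma sg_fl_self {n : ℕ} (j : Fin n) (x : Cube n) : sg (fl j x) j = - sg x j := by
  unfold sg fl flipOn
  simp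

lemma sg_fl_ne {n : ℕ} {i j : Fin n} (h : i ≠ j) (x : Cube n) : sg (fl j x) i = sg x i := by
  unfold sg fl flipOn
  simp [h]

/-- flipping as a permutation -/
def flE {n : ℕ} (j : Fin n) : Cube n ≃ Cube n :=
  ⟨fl j, fl j, fl_fl j, fl_fl j⟩

lemma sum_fl {n : ℕ} {E : Type*} [AddCommMonoid E] (j : Fin n) (g : Cube n → E) :
    ∑ x, g (fl j x) = ∑ x, g x :=
  Equiv.sum_comp (flE j) g

/-- the weight of the pair `(x, y)` for the `t`-correlated law -/
noncomputable def wt {n : ℕ} (t : ℝ) (x y : Cube n) : ℝ := ∏ i, (1 + t * (sg x i * sg y i)) / 4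

/-- the weight without the factor of the coordinate `k` -/
noncomputable def wk {n : ℕ} (t : ℝ) (k : Fin n) (x y : Cube n) : ℝ :=
  ∏ i ∈ univ.erase k, (1 + t * (sg x i * sg y i)) / 4

/-- expectation over the `t`-correlated pair -/
noncomputable def E2 {n : ℕ} (t : ℝ) (F : Cube n → Cube n → ℝ) : ℝ := ∑ x, ∑ y, wt t x y * F x y

lemma wt_eq {n : ℕ} (t : ℝ) (k : Fin n) (x y : Cube n) :
    wt t x y = (1 + t * (sg x k * sg y k)) / 4 * wk t k x y := by
  unfold wt wk
  rw [Finset.mul_prod_erase univ (fun i => (1 + t * (sg x i * sg y i)) / 4) (mem_univ k)]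

lemma sg_mul_abs {n : ℕ} (x y : Cube n) (i : Fin n) : sg x i * sg y i = 1 ∨ sg x i * sg y i = -1 := by
  unfold sg
  rcases Int.units_eq_one_or (x i) with h | h <;> rcases Int.units_eq_one_or (y i) with h' | h' <;>
    simp [h, h']

lemma wt_nonneg {n : ℕ} {t : ℝ} (h0 : 0 ≤ t) (h1 : t ≤ 1) (x y : Cube n) : 0 ≤ wt t x y := by
  unfold wt
  apply Finset.prod_nonneg
  intro i _
  rcases sg_mul_abs x y i with h | h <;> rw [h] <;> linarith

lemma wk_fl_left {n : ℕ} (t : ℝ) (k : Fin n) (x y : Cube n) : wk t k (fl k x) y = wk t k x y := by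
  unfold wk
  apply Finset.prod_congr rfl
  intro i hi
  rw [sg_fl_ne (Finset.ne_of_mem_erase hi)]

lemma wk_fl_right {n : ℕ} (t : ℝ) (k : Fin n) (x y : Cube n) : wk t k x (fl k y) = wk t k x y := by
  unfold wk
  apply Finset.prod_congr rfl
  intro i hi
  rw [sg_fl_ne (Finset.ne_of_mem_erase hi)]

lemma wt_fl_fl {n : ℕ} (t : ℝ) (k : Fin n) (x y : Cube n) : wt t (fl k x) (fl k y) = wt t x y := by
  rw [wt_eq t k, wt_eq t k x y, wk_fl_left, wk_fl_right, sg_fl_self, sg_fl_self]
  ring

lemma E2_add {n : ℕ} (t : ℝ) (F G : Cube n → Cube n → ℝ) :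
    E2 t (fun x y => F x y + G x y) = E2 t F + E2 t G := by
  unfold E2
  simp_rw [mul_add, Finset.sum_add_distrib]

lemma E2_sub {n : ℕ} (t : ℝ) (F G : Cube n → Cube n → ℝ) :
    E2 t (fun x y => F x y - G x y) = E2 t F - E2 t G := by
  unfold E2
  simp_rw [mul_sub, Finset.sum_sub_distrib]

lemma E2_const_mul {n : ℕ} (t c : ℝ) (F : Cube n → Cube n → ℝ) :
    E2 t (fun x y => c * F x y) = c * E2 t F := by
  unfold E2
  simp_rw [Finset.mul_sum]
  apply Finset.sum_congr rfl; intro x _
  apply Finset.sum_congr rfl; intro y _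
  ring

lemma E2_sum {n : ℕ} {ι : Type*} (t : ℝ) (s : Finset ι) (F : ι → Cube n → Cube n → ℝ) :
    E2 t (fun x y => ∑ i ∈ s, F i x y) = ∑ i ∈ s, E2 t (F i) := by
  unfold E2
  simp_rw [Finset.mul_sum]
  symm
  rw [Finset.sum_comm]
  apply Finset.sum_congr rfl; intro x _
  rw [Finset.sum_comm]

lemma E2_mono {n : ℕ} {t : ℝ} (h0 : 0 ≤ t) (h1 : t ≤ 1) {F G : Cube n → Cube n → ℝ}
    (h : ∀ x y, F x y ≤ G x y) : E2 t F ≤ E2 t G := by
  unfold E2
  apply Finset.sum_le_sum; intro x _
  apply Finset.sum_le_sum; intro y _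
  exact mul_le_mul_of_nonneg_left (h x y) (wt_nonneg h0 h1 x y)

lemma E2_nonneg {n : ℕ} {t : ℝ} (h0 : 0 ≤ t) (h1 : t ≤ 1) {F : Cube n → Cube n → ℝ}
    (h : ∀ x y, 0 ≤ F x y) : 0 ≤ E2 t F := by
  unfold E2
  apply Finset.sum_nonneg; intro x _
  apply Finset.sum_nonneg; intro y _
  exact mul_nonneg (wt_nonneg h0 h1 x y) (h x y)

/-- flipping both -/
lemma E2_fl {n : ℕ} (t : ℝ) (k : Fin n) (F : Cube n → Cube n → ℝ) :
    E2 t (fun x y => F (fl k x) (fl k y)) = E2 t F := by
  unfold E2
  rw [← sum_fl k]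
  apply Finset.sum_congr rfl; intro x _
  rw [← sum_fl k]
  apply Finset.sum_congr rfl; intro y _
  simp only [wt_fl_fl, fl_fl]

/-- auxiliary: antisymmetric sums vanish -/
lemma sum_anti {n : ℕ} (k : Fin n) (g : Cube n → ℝ) (h : ∀ x, g (fl k x) = - g x) :
    ∑ x, g x = 0 := by
  have h1 := sum_fl k g
  simp_rw [h] at h1
  rw [Finset.sum_neg_distrib] at h1
  linarith

/-- `sum of wk * F` for `F` odd in `x_k` vanishes -/
lemma sum_wk_anti_left {n : ℕ} (t : ℝ) (k : Fin n) (F : Cube n → Cube n → ℝ)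
    (h : ∀ x y, F (fl k x) y = - F x y) : ∑ x, ∑ y, wk t k x y * F x y = 0 := by
  apply sum_anti k
  intro x
  rw [← Finset.sum_neg_distrib]
  apply Finset.sum_congr rfl; intro y _
  rw [wk_fl_left, h]; ring

lemma sum_wk_anti_right {n : ℕ} (t : ℝ) (k : Fin n) (F : Cube n → Cube n → ℝ)
    (h : ∀ x y, F x (fl k y) = - F x y) : ∑ x, ∑ y, wk t k x y * F x y = 0 := by
  apply Finset.sum_eq_zero
  intro x _
  apply sum_anti k
  intro y
  rw [wk_fl_right, h]; ring

/-- for `F` not depending on `x_k, y_k` -/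
lemma E2_inv {n : ℕ} (t : ℝ) (k : Fin n) (F : Cube n → Cube n → ℝ)
    (hx : ∀ x y, F (fl k x) y = F x y) :
    E2 t F = (∑ x, ∑ y, wk t k x y * F x y) / 4 := by
  have h1 : E2 t F = (∑ x, ∑ y, wk t k x y * F x y) / 4
      + t / 4 * ∑ x, ∑ y, wk t k x y * (sg x k * sg y k * F x y) := by
    unfold E2
    rw [Finset.sum_div, Finset.mul_sum, ← Finset.sum_add_distrib]
    apply Finset.sum_congr rfl; intro x _
    rw [Finset.sum_div, Finset.mul_sum, ← Finset.sum_add_distrib]
    apply Finset.sum_congr rfl; intro y _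
    rw [wt_eq t k]; ring
  rw [h1, sum_wk_anti_left t k (fun x y => sg x k * sg y k * F x y)
    (fun x y => by rw [sg_fl_self, hx]; ring)]
  ring

lemma E2_sg_left {n : ℕ} (t : ℝ) (k : Fin n) (F : Cube n → Cube n → ℝ)
    (hx : ∀ x y, F (fl k x) y = F x y) (hy : ∀ x y, F x (fl k y) = F x y) :
    E2 t (fun x y => sg x k * F x y) = 0 := by
  have h := E2_fl t k (fun x y => sg x k * F x y)
  simp only [sg_fl_self, hx, hy] at h
  have h2 : E2 t (fun x y => -sg x k * F x y) = - E2 t (fun x y => sg x k * F x y) := by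
    rw [← neg_one_mul, ← E2_const_mul]
    congr 1; funext x y; ring
  rw [h2] at h
  linarith

lemma E2_sg_right {n : ℕ} (t : ℝ) (k : Fin n) (F : Cube n → Cube n → ℝ)
    (hx : ∀ x y, F (fl k x) y = F x y) (hy : ∀ x y, F x (fl k y) = F x y) :
    E2 t (fun x y => sg y k * F x y) = 0 := by
  have h := E2_fl t k (fun x y => sg y k * F x y)
  simp only [sg_fl_self, hx, hy] at h
  have h2 : E2 t (fun x y => -sg y k * F x y) = - E2 t (fun x y => sg y k * F x y) := by
    rw [← neg_one_mul, ← E2_const_mul]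
    congr 1; funext x y; ring
  rw [h2] at h
  linarith

/-- the conditional mean of `x_k` given the rest is `t y_k` -/
lemma E2_sg_swap {n : ℕ} (t : ℝ) (k : Fin n) (F : Cube n → Cube n → ℝ)
    (hx : ∀ x y, F (fl k x) y = F x y) :
    E2 t (fun x y => sg x k * F x y) = t * E2 t (fun x y => sg y k * F x y) := by
  rw [E2_inv t k (fun x y => sg y k * F x y) (fun x y => by rw [hx])]
  have h1 : E2 t (fun x y => sg x k * F x y)
      = (∑ x, ∑ y, wk t k x y * (sg x k * F x y)) / 4
      + t / 4 * ∑ x, ∑ y, wk t k x y * (sg y k * F x y) := by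
    unfold E2
    rw [Finset.sum_div, Finset.mul_sum, ← Finset.sum_add_distrib]
    apply Finset.sum_congr rfl; intro x _
    rw [Finset.sum_div, Finset.mul_sum, ← Finset.sum_add_distrib]
    apply Finset.sum_congr rfl; intro y _
    rw [wt_eq t k]
    linear_combination (t / 4 * wk t k x y * F x y * sg y k) * sg_sq x k
  rw [h1, sum_wk_anti_left t k (fun x y => sg x k * F x y)
    (fun x y => by rw [sg_fl_self, hx]; ring)]
  ring

lemma E2_sg_sg {n : ℕ} (t : ℝ) (k : Fin n) (F : Cube n → Cube n → ℝ)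
    (hx : ∀ x y, F (fl k x) y = F x y) :
    E2 t (fun x y => sg x k * sg y k * F x y) = t * E2 t F := by
  rw [E2_inv t k F hx]
  have h1 : E2 t (fun x y => sg x k * sg y k * F x y)
      = (∑ x, ∑ y, wk t k x y * (sg x k * sg y k * F x y)) / 4
      + t / 4 * ∑ x, ∑ y, wk t k x y * F x y := by
    unfold E2
    rw [Finset.sum_div, Finset.mul_sum, ← Finset.sum_add_distrib]
    apply Finset.sum_congr rfl; intro x _
    rw [Finset.sum_div, Finset.mul_sum, ← Finset.sum_add_distrib]
    apply Finset.sum_congr rfl; intro y _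
    rw [wt_eq t k]
    linear_combination (t / 4 * wk t k x y * F x y * (sg y k * sg y k)) * sg_sq x k
      + (t / 4 * wk t k x y * F x y) * sg_sq y k
  rw [h1, sum_wk_anti_left t k (fun x y => sg x k * sg y k * F x y)
    (fun x y => by rw [sg_fl_self, hx]; ring)]
  ring

/-- at `t = 0` the pair is independent -/
lemma E2_zero {n : ℕ} (G K : Cube n → ℝ) :
    E2 0 (fun x y => G x * K y) = ex G * ex K := by
  have hw : ∀ x y : Cube n, wt 0 x y = 1 / ((2 : ℝ) ^ n * 2 ^ n) := by
    intro x y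
    unfold wt
    simp only [zero_mul, add_zero, Finset.prod_const, Finset.card_univ, Fintype.card_fin]
    rw [← mul_pow, div_pow, one_pow]
    norm_num
  unfold E2 ex
  simp_rw [hw]
  rw [div_mul_div_comm, Finset.sum_mul_sum, Finset.sum_div]
  apply Finset.sum_congr rfl; intro x _
  rw [Finset.sum_div]
  apply Finset.sum_congr rfl; intro y _
  ring

/-- at `t = 1` the two points agree -/
lemma E2_one {n : ℕ} (F : Cube n → Cube n → ℝ) : E2 1 F = ex (fun x => F x x) := by
  have hw : ∀ x y : Cube n, wt 1 x y = if y = x then 1 / (2 : ℝ) ^ n else 0 := by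
    intro x y
    split_ifs with h
    · subst h
      unfold wt
      simp only [sg_sq, one_mul, Finset.prod_const, Finset.card_univ, Fintype.card_fin]
      rw [← one_div_pow]
      norm_num
    · obtain ⟨i, hi⟩ := Function.ne_iff.mp h
      unfold wt
      apply Finset.prod_eq_zero (Finset.mem_univ i)
      have : sg x i * sg y i = -1 := by
        unfold sg
        rcases Int.units_eq_one_or (x i) with h | h <;>
          rcases Int.units_eq_one_or (y i) with h' | h' <;> simp [h, h'] at hi ⊢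
      rw [this]; norm_num
  unfold E2 ex
  simp_rw [hw, ite_mul, zero_mul]
  rw [Finset.sum_div]
  apply Finset.sum_congr rfl; intro x _
  rw [Finset.sum_ite_eq' univ x (fun y => 1 / (2 : ℝ) ^ n * F x y)]
  simp
  ring

/-- derivative with values in a real vector space -/
noncomputable def dd {n : ℕ} {E : Type*} [AddCommGroup E] [Module ℝ E] (j : Fin n)
    (g : Cube n → E) (x : Cube n) : E := (sg x j / 2) • (g x - g (fl j x))

/-- average over one coordinate -/
noncomputable def av {n : ℕ} {E : Type*} [AddCommGroup E] [Module ℝ E] (j : Fin n)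
    (g : Cube n → E) (x : Cube n) : E := (1 / 2 : ℝ) • (g x + g (fl j x))

lemma dd_fl {n : ℕ} {E : Type*} [AddCommGroup E] [Module ℝ E] (j : Fin n)
    (g : Cube n → E) (x : Cube n) : dd j g (fl j x) = dd j g x := by
  unfold dd
  rw [fl_fl, sg_fl_self, ← neg_sub (g x), smul_neg, ← neg_smul]
  congr 1; ring

lemma av_fl {n : ℕ} {E : Type*} [AddCommGroup E] [Module ℝ E] (j : Fin n)
    (g : Cube n → E) (x : Cube n) : av j g (fl j x) = av j g x := by
  unfold av
  rw [fl_fl, add_comm]

lemma eq_av_add {n : ℕ} {E : Type*} [AddCommGroup E] [Module ℝ E] (j : Fin n)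
    (g : Cube n → E) (x : Cube n) : g x = av j g x + sg x j • dd j g x := by
  unfold av dd
  rw [smul_smul, ← mul_div_assoc, sg_sq, ← smul_add]
  have : g x + g (fl j x) + (g x - g (fl j x)) = (2 : ℝ) • g x := by
    rw [two_smul]; abel
  rw [this, smul_smul]
  norm_num

lemma dd_eq {n : ℕ} (f : Cube n → ℝ) (j : Fin n) (x : Cube n) :
    dd j f x = Pool.Agent.Helper11.AA.discreteDeriv j f x := by
  have h := Pool.Agent.Helper11.AA.sub_flip f j x
  unfold dd
  have h2 : f (fl j x) = f (flipOn {j} x) := rfl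
  rw [h2, h, smul_eq_mul]
  have h3 := sg_sq x j
  unfold sg at h3 ⊢
  linear_combination (Pool.Agent.Helper11.AA.discreteDeriv j f x) * h3

/-- **derivative in the correlation** -/
lemma hasDerivAt_E2 {n : ℕ} (G K : Cube n → ℝ) (t : ℝ) :
    HasDerivAt (fun t => E2 t (fun x y => G x * K y))
      (∑ k, E2 t (fun x y => dd k G x * dd k K y)) t := by
  have h1 : ∀ x y : Cube n, HasDerivAt (fun t => wt t x y)
      (∑ k, wk t k x y * (sg x k * sg y k / 4)) t := by
    intro x y
    unfold wt wk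
    have := HasDerivAt.fun_finsetProd (u := (univ : Finset (Fin n)))
      (f := fun i t => (1 + t * (sg x i * sg y i)) / 4)
      (f' := fun i => sg x i * sg y i / 4) (x := t) (fun i _ => by
        have h := ((hasDerivAt_id t).mul_const (sg x i * sg y i)).const_add 1
        have h' := h.div_const 4
        simpa using h')
    simpa [smul_eq_mul] using this
  have h2 : HasDerivAt (fun t => E2 t (fun x y => G x * K y))
      (∑ x, ∑ y, (∑ k, wk t k x y * (sg x k * sg y k / 4)) * (G x * K y)) t := by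
    unfold E2
    apply HasDerivAt.fun_sum
    intro x _
    apply HasDerivAt.fun_sum
    intro y _
    exact (h1 x y).mul_const _
  convert h2 using 1
  have h3 : ∀ k : Fin n, E2 t (fun x y => dd k G x * dd k K y)
      = ∑ x, ∑ y, wk t k x y * (sg x k * sg y k / 4) * (G x * K y) := by
    intro k
    rw [E2_inv t k _ (fun x y => by rw [dd_fl])]
    have e : ∀ x y, wk t k x y * (dd k G x * dd k K y)
        = wk t k x y * (sg x k * sg y k / 4) * (G x * K y)
        - wk t k x y * (sg x k * sg y k / 4) * (G (fl k x) * K y)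
        - wk t k x y * (sg x k * sg y k / 4) * (G x * K (fl k y))
        + wk t k x y * (sg x k * sg y k / 4) * (G (fl k x) * K (fl k y)) := by
      intro x y
      unfold dd
      simp only [smul_eq_mul]
      ring
    simp_rw [e, Finset.sum_add_distrib, Finset.sum_sub_distrib]
    have a1 : ∑ x, ∑ y, wk t k x y * (sg x k * sg y k / 4) * (G (fl k x) * K y)
        = - ∑ x, ∑ y, wk t k x y * (sg x k * sg y k / 4) * (G x * K y) := by
      rw [← sum_fl k, ← Finset.sum_neg_distrib]
      apply Finset.sum_congr rfl; intro x _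
      rw [← Finset.sum_neg_distrib]
      apply Finset.sum_congr rfl; intro y _
      rw [fl_fl, wk_fl_left, sg_fl_self]; ring
    have a2 : ∑ x, ∑ y, wk t k x y * (sg x k * sg y k / 4) * (G x * K (fl k y))
        = - ∑ x, ∑ y, wk t k x y * (sg x k * sg y k / 4) * (G x * K y) := by
      rw [← Finset.sum_neg_distrib]
      apply Finset.sum_congr rfl; intro x _
      rw [← sum_fl k, ← Finset.sum_neg_distrib]
      apply Finset.sum_congr rfl; intro y _
      rw [fl_fl, wk_fl_right, sg_fl_self]; ring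
    have a3 : ∑ x, ∑ y, wk t k x y * (sg x k * sg y k / 4) * (G (fl k x) * K (fl k y))
        = ∑ x, ∑ y, wk t k x y * (sg x k * sg y k / 4) * (G x * K y) := by
      rw [← sum_fl k]
      apply Finset.sum_congr rfl; intro x _
      rw [← sum_fl k]
      apply Finset.sum_congr rfl; intro y _
      rw [fl_fl, fl_fl, wk_fl_left, wk_fl_right, sg_fl_self, sg_fl_self]; ring
    rw [a1, a2, a3]
    ring
  simp_rw [h3]
  rw [Finset.sum_comm]
  apply Finset.sum_congr rfl; intro x _
  rw [Finset.sum_comm]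
  apply Finset.sum_congr rfl; intro y _
  rw [Finset.sum_mul]

end Pool.Agent.QRA
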