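import Mathlib
import Pool.Agent.QRA.Noise

/-!
`L^2` norms of families of vector functions of a correlated pair.
-/

set_option linter.dupNamespace false

namespace Pool.Agent.QRA

open Finset Pool.Agent.Helper11.Cube
open scoped InnerProductSpace

variable {n : ℕ} {ι : Type} [Fintype ι] {H : Type*} [NormedAddCommGroup H] [InnerProductSpace ℝ H]

/-- the `L^2` norm of a family -/
noncomputable def nrm (t : ℝ) (F : ι → Cube n → Cube n → H) : ℝ :=
  Real.sqrt (∑ i, E2 t (fun x y => ‖F i x y‖ ^ 2))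

/-- the family as a vector -/
noncomputable def vec (t : ℝ) (F : ι → Cube n → Cube n → H) :
    PiLp 2 (fun _ : ι × Cube n × Cube n => H) :=
  WithLp.toLp 2 (fun z => Real.sqrt (wt t z.2.1 z.2.2) • F z.1 z.2.1 z.2.2)

lemma nrm_nonneg (t : ℝ) (F : ι → Cube n → Cube n → H) : 0 ≤ nrm t F := Real.sqrt_nonneg _

lemma nrm_sq {t : ℝ} (h0 : 0 ≤ t) (h1 : t ≤ 1) (F : ι → Cube n → Cube n → H) :
    nrm t F ^ 2 = ∑ i, E2 t (fun x y => ‖F i x y‖ ^ 2) := by
  unfold nrm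
  rw [Real.sq_sqrt]
  exact Finset.sum_nonneg (fun i _ => E2_nonneg h0 h1 (fun x y => by positivity))

lemma norm_vec {t : ℝ} (h0 : 0 ≤ t) (h1 : t ≤ 1) (F : ι → Cube n → Cube n → H) :
    ‖vec t F‖ = nrm t F := by
  unfold vec nrm
  rw [PiLp.norm_eq_of_L2]
  congr 1
  rw [Fintype.sum_prod_type]
  apply Finset.sum_congr rfl; intro i _
  unfold E2
  rw [Fintype.sum_prod_type]
  apply Finset.sum_congr rfl; intro x _
  apply Finset.sum_congr rfl; intro y _
  simp only [norm_smul, mul_pow, Real.norm_eq_abs, sq_abs]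
  rw [Real.sq_sqrt (wt_nonneg h0 h1 x y)]

lemma vec_add (t : ℝ) (F G : ι → Cube n → Cube n → H) :
    vec t (fun i x y => F i x y + G i x y) = vec t F + vec t G := by
  unfold vec
  ext z
  simp [smul_add]

lemma nrm_add_le {t : ℝ} (h0 : 0 ≤ t) (h1 : t ≤ 1) (F G : ι → Cube n → Cube n → H) :
    nrm t (fun i x y => F i x y + G i x y) ≤ nrm t F + nrm t G := by
  rw [← norm_vec h0 h1, ← norm_vec h0 h1, ← norm_vec h0 h1, vec_add]
  exact norm_add_le _ _

lemma inner_vec {t : ℝ} (h0 : 0 ≤ t) (h1 : t ≤ 1) (F G : ι → Cube n → Cube n → H) :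
    ⟪vec t F, vec t G⟫_ℝ = ∑ i, E2 t (fun x y => ⟪F i x y, G i x y⟫_ℝ) := by
  unfold vec
  rw [PiLp.inner_apply, Fintype.sum_prod_type]
  apply Finset.sum_congr rfl; intro i _
  unfold E2
  rw [Fintype.sum_prod_type]
  apply Finset.sum_congr rfl; intro x _
  apply Finset.sum_congr rfl; intro y _
  simp only [real_inner_smul_left, real_inner_smul_right]
  rw [← mul_assoc, Real.mul_self_sqrt (wt_nonneg h0 h1 x y)]

/-- Cauchy-Schwarz. -/
lemma sum_inner_le {t : ℝ} (h0 : 0 ≤ t) (h1 : t ≤ 1) (F G : ι → Cube n → Cube n → H) :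
    ∑ i, E2 t (fun x y => ⟪F i x y, G i x y⟫_ℝ) ≤ nrm t F * nrm t G := by
  rw [← inner_vec h0 h1, ← norm_vec h0 h1, ← norm_vec h0 h1]
  exact real_inner_le_norm _ _

lemma nrm_mono {κ : Type} [Fintype κ] {H' : Type*} [NormedAddCommGroup H']
    [InnerProductSpace ℝ H'] {t : ℝ} (c : ℝ)
    (F : ι → Cube n → Cube n → H) (G : κ → Cube n → Cube n → H') (hc : 0 ≤ c)
    (h0 : 0 ≤ t) (h1 : t ≤ 1)
    (h : ∑ i, E2 t (fun x y => ‖F i x y‖ ^ 2) ≤ c ^ 2 * ∑ i, E2 t (fun x y => ‖G i x y‖ ^ 2)) :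
    nrm t F ≤ c * nrm t G := by
  rw [← nrm_sq h0 h1, ← nrm_sq h0 h1, ← mul_pow] at h
  exact le_of_sq_le_sq h (mul_nonneg hc (nrm_nonneg _ _))

end Pool.Agent.QRA
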