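import Mathlib
import Pool.Agent.QRA.Nrm

/-!
Query systems, states after `k` rounds, and the Minkowski recursion.
-/

set_option linter.dupNamespace false
set_option linter.unusedSectionVars false

namespace Pool.Agent.QRA

open Finset Pool.Agent.Helper11.Cube
open scoped InnerProductSpace

/-- Abstract query operators of width `p`. -/
structure Sys (n : ℕ) (p : ℝ) (H : Type*) [NormedAddCommGroup H] [InnerProductSpace ℝ H] where
  O : Cube n → H →ₗ[ℝ] H
  P : Fin n → H →ₗ[ℝ] H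
  O_norm : ∀ x u, ‖O x u‖ ≤ ‖u‖
  O_diff : ∀ j x u, O x u - O (fl j x) u = (2 : ℝ) • P j (O x u)
  P_norm : ∀ j u, ‖P j u‖ ≤ ‖u‖
  PO_norm : ∀ j x u, ‖P j (O x u)‖ = ‖P j u‖
  P_sum : ∀ (c : Fin n → ℝ) (u : Fin n → H),
    ‖∑ j, c j • P j (u j)‖ ^ 2 ≤ p * ∑ j, c j ^ 2 * ‖P j (u j)‖ ^ 2
  P_tot : ∀ u, ∑ j, ‖P j u‖ ^ 2 ≤ p * ‖u‖ ^ 2
  p_nonneg : 0 ≤ p

variable {n : ℕ} {p : ℝ} {H : Type*} [NormedAddCommGroup H] [InnerProductSpace ℝ H]

/-- the state after `k` rounds, with the query operators `S k` in round `k + 1` -/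
def st (S : ℕ → Sys n p H) (V : ℕ → H →ₗ[ℝ] H) (φ : H) : ℕ → Cube n → H
  | 0, _ => φ
  | k + 1, x => (S k).O x (V k (st S V φ k x))

lemma norm_st_le (S : ℕ → Sys n p H) (V : ℕ → H →ₗ[ℝ] H) (hV : ∀ k u, ‖V k u‖ ≤ ‖u‖) (φ : H)
    (k : ℕ) (x : Cube n) : ‖st S V φ k x‖ ≤ ‖φ‖ := by
  induction k with
  | zero => exact le_rfl
  | succ k ih => exact ((S k).O_norm _ _).trans ((hV _ _).trans ih)

lemma dd_st_zero (S : ℕ → Sys n p H) (V : ℕ → H →ₗ[ℝ] H) (φ : H) (j : Fin n) (y : Cube n) :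
    dd j (st S V φ 0) y = 0 := by
  unfold dd st
  simp

lemma dd_st_succ (S : ℕ → Sys n p H) (V : ℕ → H →ₗ[ℝ] H) (φ : H) (k : ℕ) (j : Fin n)
    (y : Cube n) :
    dd j (st S V φ (k + 1)) y = (S k).O y (V k (dd j (st S V φ k) y))
      + sg y j • (S k).P j ((S k).O y (V k (st S V φ k (fl j y)))) := by
  have h := (S k).O_diff j y (V k (st S V φ k (fl j y)))
  have e1 : st S V φ (k + 1) y = (S k).O y (V k (st S V φ k y)) := rfl
  have e2 : st S V φ (k + 1) (fl j y) = (S k).O (fl j y) (V k (st S V φ k (fl j y))) := rfl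
  have h2 : (S k).O (fl j y) (V k (st S V φ k (fl j y))) = (S k).O y (V k (st S V φ k (fl j y)))
      - (2 : ℝ) • (S k).P j ((S k).O y (V k (st S V φ k (fl j y)))) := by
    rw [← h]; abel
  unfold dd
  rw [e1, e2, h2]
  simp only [map_smul, map_sub]
  module

/-- restriction of a coefficient to a set of coordinates -/
noncomputable def cf (U : Finset (Fin n)) (h : Cube n → ℝ) (j : Fin n) (x : Cube n) : ℝ :=
  if j ∈ U then dd j h x else 0

lemma cf_fl (U : Finset (Fin n)) (h : Cube n → ℝ) (j : Fin n) (x : Cube n) :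
    cf U h j (fl j x) = cf U h j x := by
  unfold cf
  rw [dd_fl]

/-- the gradient pairing over a set of coordinates -/
noncomputable def Zf (S : ℕ → Sys n p H) (V : ℕ → H →ₗ[ℝ] H) (φ : H) (U : Finset (Fin n))
    (h : Cube n → ℝ) (k : ℕ) : Cube n → Cube n → H :=
  fun x y => ∑ j, cf U h j x • dd j (st S V φ k) y

/-- quenched query weights of round `k + 1` over a set of coordinates -/
noncomputable def al (S : ℕ → Sys n p H) (V : ℕ → H →ₗ[ℝ] H) (φ : H) (t : ℝ)
    (U : Finset (Fin n)) (h : Cube n → ℝ) (k : ℕ) : ℝ :=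
  nrm t (fun (j : Fin n) x y => cf U h j x • (S k).P j (V k (st S V φ k y)))

lemma al_nonneg (S : ℕ → Sys n p H) (V : ℕ → H →ₗ[ℝ] H) (φ : H) (t : ℝ) (U : Finset (Fin n))
    (h : Cube n → ℝ) (k : ℕ) : 0 ≤ al S V φ t U h k := nrm_nonneg _ _

lemma al_zero (S : ℕ → Sys n p H) (V : ℕ → H →ₗ[ℝ] H) (φ : H) (t : ℝ) (U : Finset (Fin n))
    (h : Cube n → ℝ) (k : ℕ) (h0 : ∀ j x u, cf U h j x • (S k).P j u = 0) :
    al S V φ t U h k = 0 := by
  unfold al nrm E2
  simp [h0]

lemma al_mono (S : ℕ → Sys n p H) (V : ℕ → H →ₗ[ℝ] H) (φ : H) {t : ℝ} (h0 : 0 ≤ t) (h1 : t ≤ 1)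
    (U : Finset (Fin n)) (h : Cube n → ℝ) (k : ℕ) :
    al S V φ t U h k ≤ al S V φ t univ h k := by
  unfold al
  have := nrm_mono (t := t) 1 (fun (j : Fin n) x y => cf U h j x • (S k).P j (V k (st S V φ k y)))
    (fun (j : Fin n) x y => cf univ h j x • (S k).P j (V k (st S V φ k y))) zero_le_one h0 h1 (by
      rw [one_pow, one_mul]
      apply Finset.sum_le_sum; intro j _
      apply E2_mono h0 h1; intro x y
      unfold cf
      rw [if_pos (mem_univ j)]
      split_ifs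
      · exact le_rfl
      · rw [zero_smul, norm_zero, zero_pow two_ne_zero]; positivity)
  simpa using this

lemma nrm_Zf_succ (S : ℕ → Sys n p H) (V : ℕ → H →ₗ[ℝ] H) (hV : ∀ k u, ‖V k u‖ ≤ ‖u‖) (φ : H)
    {t : ℝ} (h0 : 0 ≤ t) (h1 : t ≤ 1) (U : Finset (Fin n)) (h : Cube n → ℝ) (k : ℕ) :
    nrm t (fun (_ : Unit) => Zf S V φ U h (k + 1))
      ≤ nrm t (fun (_ : Unit) => Zf S V φ U h k) + Real.sqrt p * al S V φ t U h k := by
  have hZ : (fun (_ : Unit) => Zf S V φ U h (k + 1))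
      = fun _ x y => (S k).O y (V k (Zf S V φ U h k x y))
      + ∑ j, (cf U h j x * sg y j) • (S k).P j ((S k).O y (V k (st S V φ k (fl j y)))) := by
    funext _ x y
    unfold Zf
    simp_rw [dd_st_succ, map_sum, map_smul, ← Finset.sum_add_distrib, smul_add, smul_smul]
  rw [hZ]
  refine (nrm_add_le h0 h1 _ _).trans ?_
  apply add_le_add
  · have := nrm_mono (t := t) 1 (fun (_ : Unit) x y => (S k).O y (V k (Zf S V φ U h k x y)))
      (fun (_ : Unit) => Zf S V φ U h k) zero_le_one h0 h1 (by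
        rw [one_pow, one_mul]
        apply Finset.sum_le_sum; intro i _
        apply E2_mono h0 h1; intro x y
        exact pow_le_pow_left₀ (norm_nonneg _) (((S k).O_norm _ _).trans (hV _ _)) 2)
    simpa using this
  · unfold al
    apply nrm_mono (Real.sqrt p) _ _ (Real.sqrt_nonneg _) h0 h1
    rw [Real.sq_sqrt (S 0).p_nonneg, Finset.mul_sum]
    simp only [Finset.univ_unique, Finset.sum_singleton]
    calc E2 t (fun x y => ‖∑ j, (cf U h j x * sg y j)
          • (S k).P j ((S k).O y (V k (st S V φ k (fl j y))))‖ ^ 2)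
        ≤ E2 t (fun x y => ∑ j, p * (cf U h j x ^ 2
          * ‖(S k).P j (V k (st S V φ k (fl j y)))‖ ^ 2)) := by
          apply E2_mono h0 h1; intro x y
          refine ((S k).P_sum _ _).trans (le_of_eq ?_)
          rw [Finset.mul_sum]
          apply Finset.sum_congr rfl; intro j _
          rw [(S k).PO_norm, mul_pow, sq (sg y j), sg_sq, mul_one]
      _ = ∑ j, p * E2 t (fun x y => ‖cf U h j x • (S k).P j (V k (st S V φ k y))‖ ^ 2) := by
          rw [E2_sum]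
          apply Finset.sum_congr rfl; intro j _
          rw [E2_const_mul]
          congr 1
          rw [← E2_fl t j (fun x y => ‖cf U h j x • (S k).P j (V k (st S V φ k y))‖ ^ 2)]
          congr 1; funext x y
          rw [cf_fl, norm_smul, mul_pow, Real.norm_eq_abs, sq_abs]

lemma nrm_Zf_le (S : ℕ → Sys n p H) (V : ℕ → H →ₗ[ℝ] H) (hV : ∀ k u, ‖V k u‖ ≤ ‖u‖) (φ : H)
    {t : ℝ} (h0 : 0 ≤ t) (h1 : t ≤ 1) (U : Finset (Fin n)) (h : Cube n → ℝ) (k : ℕ) :
    nrm t (fun (_ : Unit) => Zf S V φ U h k)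
      ≤ Real.sqrt p * ∑ l ∈ range k, al S V φ t U h l := by
  induction k with
  | zero =>
    have : (fun (_ : Unit) => Zf S V φ U h 0) = fun _ _ _ => 0 := by
      funext _ x y
      unfold Zf
      simp [dd_st_zero]
    rw [this]
    unfold nrm E2
    simp
  | succ k ih =>
    refine (nrm_Zf_succ S V hV φ h0 h1 U h k).trans ?_
    rw [Finset.sum_range_succ, mul_add]
    linarith

end Pool.Agent.QRA
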