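import Mathlib
import Pool.Agent.QRA.Sys

/-!
The differential inequality for quenched weights.
-/

set_option linter.dupNamespace false
set_option linter.unusedSectionVars false

namespace Pool.Agent.QRA

open Finset Pool.Agent.Helper11.Cube
open scoped InnerProductSpace

variable {n : ℕ} {ι : Type} [Fintype ι] {H : Type*} [NormedAddCommGroup H]
  [InnerProductSpace ℝ H]

lemma dd_sq (g : Cube n → ℝ) (k : Fin n) (x : Cube n) :
    dd k (fun x => g x ^ 2) x = 2 * (av k g x * dd k g x) := by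
  unfold dd av
  simp only [smul_eq_mul]
  ring

lemma dd_normsq (Θ : Cube n → H) (k : Fin n) (y : Cube n) :
    dd k (fun y => ‖Θ y‖ ^ 2) y = 2 * ⟪dd k Θ y, av k Θ y⟫_ℝ := by
  unfold dd av
  simp only [smul_eq_mul, real_inner_smul_left, real_inner_smul_right, inner_sub_left,
    inner_add_right, real_inner_self_eq_norm_sq, real_inner_comm (Θ y) (Θ (fl k y))]
  ring

/-- the basic identity -/
lemma E2_deriv_eq (t : ℝ) (g : Cube n → ℝ) (Θ : Cube n → H) (k : Fin n) :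
    E2 t (fun x y => dd k (fun x => g x ^ 2) x * dd k (fun y => ‖Θ y‖ ^ 2) y)
      = 4 * E2 t (fun x y => g x * dd k g x * ⟪dd k Θ y, Θ y⟫_ℝ)
        - 4 * t * E2 t (fun x y => dd k g x ^ 2 * ‖dd k Θ y‖ ^ 2) := by
  have e1 : (fun (x y : Cube n) => g x * dd k g x * ⟪dd k Θ y, Θ y⟫_ℝ)
      = fun x y => ((av k g x * dd k g x * ⟪dd k Θ y, av k Θ y⟫_ℝ
        + sg x k * (dd k g x ^ 2 * ⟪dd k Θ y, av k Θ y⟫_ℝ))
        + sg y k * (av k g x * dd k g x * ‖dd k Θ y‖ ^ 2))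
        + sg x k * sg y k * (dd k g x ^ 2 * ‖dd k Θ y‖ ^ 2) := by
    funext x y
    have h1 := eq_av_add k g x
    have h2 : ⟪dd k Θ y, Θ y⟫_ℝ = ⟪dd k Θ y, av k Θ y⟫_ℝ + sg y k * ‖dd k Θ y‖ ^ 2 := by
      conv_lhs => rw [eq_av_add k Θ y]
      rw [inner_add_right, real_inner_smul_right, ← real_inner_self_eq_norm_sq]
    rw [h2]
    conv_lhs => rw [h1]
    rw [smul_eq_mul]
    ring
  rw [e1, E2_add, E2_add, E2_add, E2_sg_left t k, E2_sg_right t k, E2_sg_sg t k]
  · have e2 : (fun (x y : Cube n) => dd k (fun x => g x ^ 2) x * dd k (fun y => ‖Θ y‖ ^ 2) y)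
        = fun x y => 4 * (av k g x * dd k g x * ⟪dd k Θ y, av k Θ y⟫_ℝ) := by
      funext x y
      rw [dd_sq, dd_normsq]; ring
    rw [e2, E2_const_mul]
    ring
  all_goals
    intro x y
    simp only [dd_fl, av_fl]

/-- derivative in the first variable -/
lemma dd_left_bound (k : Fin n) (F : Cube n → Cube n → H) {t : ℝ} (h0 : 0 ≤ t) (h1 : t ≤ 1) :
    (1 - t ^ 2) * E2 t (fun x y => ‖dd k (fun x => F x y) x‖ ^ 2)
      ≤ E2 t (fun x y => ‖F x y‖ ^ 2) := by
  have e1 : (fun (x y : Cube n) => ‖F x y‖ ^ 2)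
      = fun x y => (‖av k (fun x => F x y) x‖ ^ 2 + ‖dd k (fun x => F x y) x‖ ^ 2)
        + sg x k * (2 * ⟪av k (fun x => F x y) x, dd k (fun x => F x y) x⟫_ℝ) := by
    funext x y
    have h := eq_av_add k (fun x => F x y) x
    conv_lhs => rw [h]
    rw [norm_add_sq_real, real_inner_smul_right, norm_smul, mul_pow, Real.norm_eq_abs, sq_abs,
      sq (sg x k), sg_sq]
    ring
  rw [e1, E2_add, E2_sg_swap t k _ (fun x y => by rw [av_fl, dd_fl])]
  have e2 : E2 t (fun x y => ‖av k (fun x => F x y) x‖ ^ 2 + ‖dd k (fun x => F x y) x‖ ^ 2)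
      + t * E2 t (fun x y => sg y k
        * (2 * ⟪av k (fun x => F x y) x, dd k (fun x => F x y) x⟫_ℝ))
      = E2 t (fun x y => ‖av k (fun x => F x y) x + (t * sg y k) • dd k (fun x => F x y) x‖ ^ 2)
        + (1 - t ^ 2) * E2 t (fun x y => ‖dd k (fun x => F x y) x‖ ^ 2) := by
    rw [← E2_const_mul, ← E2_const_mul, ← E2_add, ← E2_add]
    congr 1; funext x y
    rw [norm_add_sq_real, real_inner_smul_right, norm_smul, mul_pow, Real.norm_eq_abs, sq_abs,
      mul_pow, sq (sg y k), sg_sq]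
    ring
  rw [e2]
  have h3 : 0 ≤ E2 t (fun x y =>
      ‖av k (fun x => F x y) x + (t * sg y k) • dd k (fun x => F x y) x‖ ^ 2) :=
    E2_nonneg h0 h1 (fun x y => by positivity)
  linarith

/-- **the differential inequality** -/
lemma deriv_bound (g : ι → Cube n → ℝ) (B : ι → H →ₗ[ℝ] H)
    (Φ : Cube n → H) {t : ℝ} (h0 : 0 ≤ t) (h1 : t ≤ 1) :
    ∑ i, ∑ k, E2 t (fun x y => dd k (fun x => g i x ^ 2) x * dd k (fun y => ‖B i (Φ y)‖ ^ 2) y)
      ≤ 4 * (nrm t (fun (i : ι) x y => B i (∑ k, dd k (g i) x • dd k Φ y))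
        * nrm t (fun (i : ι) x y => g i x • B i (Φ y))) := by
  have hdd : ∀ i k y, dd k (fun y => B i (Φ y)) y = B i (dd k Φ y) := by
    intro i k y
    unfold dd
    rw [map_smul, map_sub]
  have s1 : ∑ i, ∑ k, E2 t (fun x y => dd k (fun x => g i x ^ 2) x
      * dd k (fun y => ‖B i (Φ y)‖ ^ 2) y)
      ≤ ∑ i, 4 * E2 t (fun x y => ⟪B i (∑ k, dd k (g i) x • dd k Φ y), g i x • B i (Φ y)⟫_ℝ) := by
    apply Finset.sum_le_sum; intro i _
    have e : (fun (x y : Cube n) => ⟪B i (∑ k, dd k (g i) x • dd k Φ y), g i x • B i (Φ y)⟫_ℝ)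
        = fun x y => ∑ k, g i x * dd k (g i) x * ⟪dd k (fun y => B i (Φ y)) y, B i (Φ y)⟫_ℝ := by
      funext x y
      rw [map_sum, sum_inner]
      apply Finset.sum_congr rfl; intro k _
      rw [map_smul, real_inner_smul_left, real_inner_smul_right, hdd]
      ring
    rw [e, E2_sum, Finset.mul_sum]
    apply Finset.sum_le_sum; intro k _
    have h2 := E2_deriv_eq t (g i) (fun y => B i (Φ y)) k
    have h3 : 0 ≤ E2 t (fun x y => dd k (g i) x ^ 2 * ‖dd k (fun y => B i (Φ y)) y‖ ^ 2) :=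
      E2_nonneg h0 h1 (fun x y => by positivity)
    have h4 : 0 ≤ 4 * t * E2 t (fun x y => dd k (g i) x ^ 2 * ‖dd k (fun y => B i (Φ y)) y‖ ^ 2) := by
      positivity
    linarith
  refine s1.trans ?_
  rw [← Finset.mul_sum]
  exact mul_le_mul_of_nonneg_left (sum_inner_le h0 h1 _ _) (by norm_num)

/-- comparison lemma -/
lemma sqrt_le_of_deriv {A A' b b' : ℝ → ℝ} {c : ℝ} (hc : 0 ≤ c)
    (hA : ∀ t, HasDerivAt A (A' t) t)
    (hb : ∀ t, HasDerivAt b (b' t) t) (hA0 : ∀ t ∈ Set.Icc (0 : ℝ) c, 0 ≤ A t)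
    (hineq : ∀ t ∈ Set.Icc (0 : ℝ) c, A' t ≤ 2 * (Real.sqrt (A t) * b' t))
    (hb' : ∀ t ∈ Set.Icc (0 : ℝ) c, 0 ≤ b' t)
    (h0 : Real.sqrt (A 0) ≤ b 0) : ∀ t ∈ Set.Icc (0 : ℝ) c, Real.sqrt (A t) ≤ b t := by
  have key : ∀ ε : ℝ, 0 < ε → ∀ t ∈ Set.Icc (0 : ℝ) c, Real.sqrt (A t) ≤ b t + ε := by
    intro ε hε t ht
    have hpos : ∀ s ∈ Set.Icc (0 : ℝ) c, 0 < A s + ε ^ 2 := by
      intro s hs
      have := hA0 s hs
      positivity
    have hd : ∀ s ∈ Set.Icc (0 : ℝ) c, HasDerivAt (fun s => b s - Real.sqrt (A s + ε ^ 2))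
        (b' s - A' s / (2 * Real.sqrt (A s + ε ^ 2))) s := by
      intro s hs
      exact (hb s).sub (((hA s).add_const _).sqrt (hpos s hs).ne')
    have hmono : MonotoneOn (fun s => b s - Real.sqrt (A s + ε ^ 2)) (Set.Icc (0 : ℝ) c) := by
      apply monotoneOn_of_deriv_nonneg (convex_Icc 0 c)
      · intro s hs
        exact (hd s hs).continuousAt.continuousWithinAt
      · intro s hs
        rw [interior_Icc] at hs
        exact (hd s (Set.Ioo_subset_Icc_self hs)).differentiableAt.differentiableWithinAt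
      · intro s hs
        rw [interior_Icc] at hs
        have hs' := Set.Ioo_subset_Icc_self hs
        rw [(hd s hs').deriv]
        have hsq : 0 < Real.sqrt (A s + ε ^ 2) := Real.sqrt_pos.mpr (hpos s hs')
        rw [sub_nonneg, div_le_iff₀ (by positivity)]
        refine (hineq s hs').trans ?_
        have h5 : Real.sqrt (A s) ≤ Real.sqrt (A s + ε ^ 2) :=
          Real.sqrt_le_sqrt (by nlinarith [sq_nonneg ε])
        have h6 := hb' s hs'
        nlinarith [mul_le_mul_of_nonneg_right h5 h6]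
    have hm := hmono (Set.left_mem_Icc.mpr hc) ht ht.1
    simp only at hm
    have h7 : Real.sqrt (A 0 + ε ^ 2) ≤ Real.sqrt (A 0) + ε := by
      rw [Real.sqrt_le_left (by positivity)]
      have h8 := hA0 0 (Set.left_mem_Icc.mpr hc)
      nlinarith [Real.sq_sqrt h8, Real.sqrt_nonneg (A 0)]
    have h9 : Real.sqrt (A t) ≤ Real.sqrt (A t + ε ^ 2) :=
      Real.sqrt_le_sqrt (by nlinarith [sq_nonneg ε])
    linarith
  intro t ht
  apply le_of_forall_pos_le_add
  intro ε hε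
  exact key ε hε t ht

end Pool.Agent.QRA
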