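import Mathlib
import Pool.Agent.QRA.Deriv

/-!
The bound for quenched query weights.
-/

set_option linter.dupNamespace false
set_option linter.unusedSectionVars false

namespace Pool.Agent.QRA

open Finset Pool.Agent.Helper11.Cube
open scoped InnerProductSpace

variable {n : ℕ} {p : ℝ} {H : Type*} [NormedAddCommGroup H] [InnerProductSpace ℝ H]

/-- the growth function -/
noncomputable def Bk (c : ℝ) (k : ℕ) (t : ℝ) : ℝ :=
  ∑ s ∈ range (k + 1), (k.choose s : ℝ) * ((c * t) ^ s / (s.factorial : ℝ))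

lemma Bk_succ (c : ℝ) (k : ℕ) (t : ℝ) : Bk c (k + 1) t = Bk c k t
    + ∑ s ∈ range (k + 1), (k.choose s : ℝ) * ((c * t) ^ (s + 1) / ((s + 1).factorial : ℝ)) := by
  unfold Bk
  rw [Finset.sum_range_succ' _ (k + 1)]
  have h1 : ∑ s ∈ range (k + 1), ((k + 1).choose (s + 1) : ℝ) * ((c * t) ^ (s + 1) / ((s + 1).factorial : ℝ))
      = ∑ s ∈ range (k + 1), (k.choose s : ℝ) * ((c * t) ^ (s + 1) / ((s + 1).factorial : ℝ))
      + ∑ s ∈ range (k + 1), (k.choose (s + 1) : ℝ) * ((c * t) ^ (s + 1) / ((s + 1).factorial : ℝ)) := by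
    rw [← Finset.sum_add_distrib]
    apply Finset.sum_congr rfl; intro s _
    rw [Nat.choose_succ_succ]; push_cast; ring
  rw [h1]
  have h2 : ∑ s ∈ range (k + 1), (k.choose s : ℝ) * ((c * t) ^ s / (s.factorial : ℝ))
      = ∑ s ∈ range (k + 1), (k.choose (s + 1) : ℝ) * ((c * t) ^ (s + 1) / ((s + 1).factorial : ℝ))
        + (k.choose 0 : ℝ) * ((c * t) ^ 0 / ((Nat.factorial 0 : ℕ) : ℝ)) := by
    rw [← Finset.sum_range_succ' (fun s => (k.choose s : ℝ) * ((c * t) ^ s / (s.factorial : ℝ))) (k + 1)]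
    rw [Finset.sum_range_succ _ (k + 1), Nat.choose_succ_self]
    simp
  rw [h2]
  simp only [Nat.choose_zero_right]
  ring

lemma hasDerivAt_Bk (c : ℝ) (k : ℕ) (t : ℝ) :
    HasDerivAt (Bk c k) (c * ∑ l ∈ range k, Bk c l t) t := by
  induction k with
  | zero =>
    have : Bk c 0 = fun _ => 1 := by
      funext t; unfold Bk; simp
    rw [this]
    simpa using hasDerivAt_const t (1 : ℝ)
  | succ k ih =>
    have h1 : Bk c (k + 1) = fun t => Bk c k t
      + ∑ s ∈ range (k + 1), (k.choose s : ℝ) * ((c * t) ^ (s + 1) / ((s + 1).factorial : ℝ)) := by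
      funext t; exact Bk_succ c k t
    rw [h1, Finset.sum_range_succ, mul_add]
    apply ih.add
    unfold Bk
    rw [Finset.mul_sum]
    apply HasDerivAt.fun_sum
    intro s _
    have h2 : HasDerivAt (fun t : ℝ => (c * t) ^ (s + 1)) (((s + 1 : ℕ) : ℝ) * (c * t) ^ s * c) t := by
      have := ((hasDerivAt_id t).const_mul c).fun_pow (s + 1)
      simpa using this
    have h3 := (h2.div_const ((s + 1).factorial : ℝ)).const_mul (k.choose s : ℝ)
    have h5 : c * ((k.choose s : ℝ) * ((c * t) ^ s / (s.factorial : ℝ)))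
        = (k.choose s : ℝ) * (((s + 1 : ℕ) : ℝ) * (c * t) ^ s * c / ((s + 1).factorial : ℝ)) := by
      rw [Nat.factorial_succ]
      push_cast
      have : ((s : ℝ) + 1) ≠ 0 := by positivity
      have h4 : (s.factorial : ℝ) ≠ 0 := by positivity
      field_simp
    rw [h5]
    exact h3

lemma Bk_nonneg {c t : ℝ} (hc : 0 ≤ c) (ht : 0 ≤ t) (k : ℕ) : 0 ≤ Bk c k t := by
  unfold Bk
  apply Finset.sum_nonneg; intro s _
  positivity

lemma Bk_zero (c : ℝ) (k : ℕ) : Bk c k 0 = 1 := by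
  unfold Bk
  rw [Finset.sum_eq_single 0]
  · simp
  · intro s _ hs
    simp [hs]
  · simp

lemma sum_Bk (c : ℝ) (r : ℕ) : ∑ l ∈ range r, Bk c l 1
    = ∑ s ∈ range r, (r.choose (s + 1) : ℝ) * (c ^ s / (s.factorial : ℝ)) := by
  induction r with
  | zero => simp
  | succ r ih =>
    rw [Finset.sum_range_succ, ih]
    unfold Bk
    rw [mul_one]
    have h1 : ∑ s ∈ range (r + 1), ((r + 1).choose (s + 1) : ℝ) * (c ^ s / (s.factorial : ℝ))
        = ∑ s ∈ range (r + 1), (r.choose s : ℝ) * (c ^ s / (s.factorial : ℝ))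
        + ∑ s ∈ range (r + 1), (r.choose (s + 1) : ℝ) * (c ^ s / (s.factorial : ℝ)) := by
      rw [← Finset.sum_add_distrib]
      apply Finset.sum_congr rfl; intro s _
      rw [Nat.choose_succ_succ]; push_cast; ring
    rw [h1, Finset.sum_range_succ (fun s => (r.choose (s + 1) : ℝ) * (c ^ s / (s.factorial : ℝ))) r,
      Nat.choose_succ_self]
    simp
    ring

lemma Bk_mono {c : ℝ} (hc : 0 ≤ c) (k : ℕ) {s t : ℝ} (hs : 0 ≤ s) (hst : s ≤ t) :
    Bk c k s ≤ Bk c k t := by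
  unfold Bk
  apply Finset.sum_le_sum; intro i _
  apply mul_le_mul_of_nonneg_left _ (Nat.cast_nonneg _)
  apply div_le_div_of_nonneg_right _ (Nat.cast_nonneg _)
  exact pow_le_pow_left₀ (mul_nonneg hc hs) (mul_le_mul_of_nonneg_left hst hc) i

lemma Bk_scale (c : ℝ) (k : ℕ) (t : ℝ) : Bk c k t = Bk (c * t) k 1 := by
  unfold Bk
  rw [mul_one]

lemma dd_comm (i j : Fin n) (f : Cube n → ℝ) (x : Cube n) :
    dd i (dd j f) x = dd j (dd i f) x := by
  by_cases hij : i = j
  · rw [hij]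
  · unfold dd
    simp only [smul_eq_mul]
    rw [sg_fl_ne hij, sg_fl_ne (Ne.symm hij), fl_comm i j]
    ring

/-- the derivative pairing of the family of derivatives is a derivative of the pairing -/
lemma dd_Zf (S : ℕ → Sys n p H) (V : ℕ → H →ₗ[ℝ] H) (φ : H) (h : Cube n → ℝ) (k : ℕ)
    (j : Fin n) (x y : Cube n) :
    ∑ m, dd m (dd j h) x • dd m (st S V φ k) y = dd j (fun x => Zf S V φ univ h k x y) x := by
  have e : dd j (fun x => Zf S V φ univ h k x y) x
      = ∑ m, dd j (dd m h) x • dd m (st S V φ k) y := by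
    unfold Zf cf
    simp only [mem_univ, if_true]
    generalize hG : (fun m => dd m (st S V φ k) y) = G
    have hG' : ∀ m, dd m (st S V φ k) y = G m := fun m => by rw [← hG]
    simp_rw [hG']
    generalize hD : (fun m => dd m h) = D
    have hD' : ∀ m, dd m h = D m := fun m => by rw [← hD]
    simp_rw [hD']
    unfold dd
    rw [← Finset.sum_sub_distrib, Finset.smul_sum]
    apply Finset.sum_congr rfl; intro m _
    rw [← sub_smul, smul_smul, smul_eq_mul]
  rw [e]
  apply Finset.sum_congr rfl; intro m _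
  rw [dd_comm]

lemma ml_dd {H' : Type*} [AddCommGroup H'] [Module ℝ H'] (B : H →ₗ[ℝ] H') (j : Fin n)
    (F : Cube n → H) (x : Cube n) : B (dd j F x) = dd j (fun x => B (F x)) x := by
  unfold dd
  rw [map_smul, map_sub]

/-- **bound for quenched weights** in the angle variable, in terms of annealed weights; `l₀` is a
number of first rounds which do not matter -/
theorem al_le (S : ℕ → Sys n p H) (V : ℕ → H →ₗ[ℝ] H) (hV : ∀ k u, ‖V k u‖ ≤ ‖u‖) (φ : H)
    (h : Cube n → ℝ) (K : ℝ) (hK0 : 0 ≤ K) (r : ℕ)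
    (hh : ∀ k < r, ∑ j, ex (fun x => dd j h x ^ 2)
      * ex (fun y => ‖(S k).P j (V k (st S V φ k y))‖ ^ 2) ≤ K ^ 2)
    (l₀ : ℕ) (hl₀ : ∀ l < l₀, l < r → ∀ j x u, cf univ h j x • (S l).P j u = 0)
    (i : ℕ) (hir : l₀ + i < r) :
      ∀ θ ∈ Set.Icc (0 : ℝ) (Real.pi / 2),
        al S V φ (Real.sin θ) univ h (l₀ + i) ≤ K * Bk (2 * p) i θ := by
  induction i using Nat.strong_induction_on with
  | _ i ih =>
  have hp0 : 0 ≤ p := (S 0).p_nonneg
  have hc0 : (0 : ℝ) ≤ 2 * p := by positivity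
  set k : ℕ := l₀ + i with hk
  set g : Fin n → Cube n → ℝ := fun j => dd j h with hg
  set B : Fin n → H →ₗ[ℝ] H := fun j => ((S k).P j).comp (V k) with hB
  set Φ : Cube n → H := st S V φ k with hΦ
  set A : ℝ → ℝ := fun t => ∑ j : Fin n, E2 t (fun x y => g j x ^ 2 * ‖B j (Φ y)‖ ^ 2) with hA
  set A' : ℝ → ℝ := fun t => ∑ j : Fin n, ∑ k, E2 t (fun x y => dd k (fun x => g j x ^ 2) x
    * dd k (fun y => ‖B j (Φ y)‖ ^ 2) y) with hA'
  have hcf : ∀ j x, cf univ h j x = dd j h x := by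
    intro j x
    unfold cf
    rw [if_pos (mem_univ j)]
  have hAeq : ∀ t, Real.sqrt (A t) = al S V φ t univ h k := by
    intro t
    rw [hA]
    unfold al nrm
    congr 1
    apply Finset.sum_congr rfl; intro z _
    congr 1; funext x y
    change g z x ^ 2 * ‖B z (Φ y)‖ ^ 2
      = ‖cf univ h z x • (S k).P z (V k (st S V φ k y))‖ ^ 2
    rw [hcf, norm_smul, mul_pow, Real.norm_eq_abs, sq_abs]
    rfl
  have hder : ∀ t, HasDerivAt A (A' t) t := by
    intro t
    rw [hA, hA']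
    apply HasDerivAt.fun_sum
    intro z _
    exact hasDerivAt_E2 _ _ t
  have hsin : ∀ θ ∈ Set.Icc (0 : ℝ) (Real.pi / 2), 0 ≤ Real.sin θ ∧ Real.sin θ ≤ 1 := by
    intro θ hθ
    exact ⟨Real.sin_nonneg_of_nonneg_of_le_pi hθ.1 (by linarith [hθ.2, Real.pi_pos]),
      Real.sin_le_one θ⟩
  have hcos : ∀ θ ∈ Set.Icc (0 : ℝ) (Real.pi / 2), 0 ≤ Real.cos θ := by
    intro θ hθ
    exact Real.cos_nonneg_of_neg_pi_div_two_le_of_le (by linarith [hθ.1, Real.pi_pos]) hθ.2
  have hder2 : ∀ θ, HasDerivAt (fun θ => A (Real.sin θ)) (A' (Real.sin θ) * Real.cos θ) θ := by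
    intro θ
    exact (hder (Real.sin θ)).comp θ (Real.hasDerivAt_sin θ)
  have hb : ∀ t, HasDerivAt (fun t => K * Bk (2 * p) i t)
      (K * (2 * p * ∑ l ∈ range i, Bk (2 * p) l t)) t := by
    intro t
    exact (hasDerivAt_Bk (2 * p) i t).const_mul K
  have hA0 : ∀ θ ∈ Set.Icc (0 : ℝ) (Real.pi / 2), 0 ≤ A (Real.sin θ) := by
    intro θ hθ
    exact Finset.sum_nonneg (fun z _ => E2_nonneg (hsin θ hθ).1 (hsin θ hθ).2
      (fun x y => by positivity))
  -- the derivative term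
  have hnrm : ∀ θ ∈ Set.Icc (0 : ℝ) (Real.pi / 2),
      Real.cos θ * nrm (Real.sin θ)
        (fun (z : Fin n) x y => B z (∑ m, dd m (g z) x • dd m Φ y))
      ≤ Real.sqrt p * nrm (Real.sin θ) (fun (_ : Unit) => Zf S V φ univ h k) := by
    intro θ hθ
    obtain ⟨h0, h1⟩ := hsin θ hθ
    have e1 : (1 : ℝ) - Real.sin θ ^ 2 = Real.cos θ ^ 2 := by
      have := Real.sin_sq_add_cos_sq θ
      linarith
    have hF : ∀ (z : Fin n) (x y : Cube n), B z (∑ m, dd m (g z) x • dd m Φ y)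
        = dd z (fun x => B z (Zf S V φ univ h k x y)) x := by
      intro z x y
      rw [hg, hΦ]
      simp only
      rw [dd_Zf, ml_dd]
    apply le_of_sq_le_sq _ (mul_nonneg (Real.sqrt_nonneg _) (nrm_nonneg _ _))
    rw [mul_pow, mul_pow, nrm_sq h0 h1, nrm_sq h0 h1, Real.sq_sqrt hp0, ← e1, Finset.mul_sum]
    simp only [Finset.univ_unique, Finset.sum_singleton]
    calc ∑ z : Fin n, (1 - Real.sin θ ^ 2)
          * E2 (Real.sin θ) (fun x y => ‖B z (∑ m, dd m (g z) x • dd m Φ y)‖ ^ 2)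
        ≤ ∑ z : Fin n,
          E2 (Real.sin θ) (fun x y => ‖B z (Zf S V φ univ h k x y)‖ ^ 2) := by
          apply Finset.sum_le_sum; intro z _
          have := dd_left_bound z (fun x y => B z (Zf S V φ univ h k x y)) h0 h1
          refine le_trans (le_of_eq ?_) this
          congr 2
          funext x y
          rw [hF]
      _ = E2 (Real.sin θ)
          (fun x y => ∑ j, ‖(S k).P j (V k (Zf S V φ univ h k x y))‖ ^ 2) := by
          rw [E2_sum]
          rfl
      _ ≤ E2 (Real.sin θ) (fun x y => p * ‖Zf S V φ univ h k x y‖ ^ 2) := by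
          apply E2_mono h0 h1; intro x y
          refine ((S k).P_tot _).trans ?_
          apply mul_le_mul_of_nonneg_left _ hp0
          exact pow_le_pow_left₀ (norm_nonneg _) (hV _ _) 2
      _ = p * E2 (Real.sin θ) (fun x y => ‖Zf S V φ univ h k x y‖ ^ 2) := by
          rw [E2_const_mul]
  have hineq : ∀ θ ∈ Set.Icc (0 : ℝ) (Real.pi / 2),
      A' (Real.sin θ) * Real.cos θ
        ≤ 2 * (Real.sqrt (A (Real.sin θ)) * (K * (2 * p * ∑ l ∈ range i, Bk (2 * p) l θ))) := by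
    intro θ hθ
    obtain ⟨h0, h1⟩ := hsin θ hθ
    have hc := hcos θ hθ
    have d1 := deriv_bound g B Φ h0 h1
    have d2 := hnrm θ hθ
    have d3 : nrm (Real.sin θ) (fun (z : Fin n) x y => g z x • B z (Φ y))
        = Real.sqrt (A (Real.sin θ)) := by
      rw [hAeq]
      unfold al
      congr 1; funext z x y
      rw [hcf]
      rfl
    have d4 : ∑ l ∈ range k, al S V φ (Real.sin θ) univ h l
        ≤ ∑ l ∈ range i, K * Bk (2 * p) l θ := by
      rw [hk, Finset.sum_range_add]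
      have z1 : ∑ l ∈ range l₀, al S V φ (Real.sin θ) univ h l = 0 := by
        apply Finset.sum_eq_zero; intro l hl
        have hl' := Finset.mem_range.mp hl
        exact al_zero S V φ _ univ h l (hl₀ l hl' (by omega))
      rw [z1, zero_add]
      apply Finset.sum_le_sum; intro l hl
      have hl' := Finset.mem_range.mp hl
      exact ih l hl' (by omega) θ hθ
    rw [← Finset.mul_sum] at d4
    have d5 := nrm_Zf_le S V hV φ h0 h1 univ h k
    rw [d3] at d1
    set N : ℝ := nrm (Real.sin θ)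
        (fun (z : Fin n) x y => B z (∑ m, dd m (g z) x • dd m Φ y)) with hN
    set SB : ℝ := ∑ l ∈ range i, Bk (2 * p) l θ with hSB
    have d6 : Real.cos θ * N ≤ Real.sqrt p * (Real.sqrt p * (K * SB)) :=
      d2.trans (mul_le_mul_of_nonneg_left
        (d5.trans (mul_le_mul_of_nonneg_left d4 (Real.sqrt_nonneg _))) (Real.sqrt_nonneg _))
    have hpp : Real.sqrt p * Real.sqrt p = p := Real.mul_self_sqrt hp0
    have d7 : Real.sqrt p * (Real.sqrt p * (K * SB)) = p * (K * SB) := by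
      rw [← mul_assoc, hpp]
    rw [d7] at d6
    have d8 := mul_le_mul_of_nonneg_right d1 hc
    refine d8.trans ?_
    have d9 := mul_le_mul_of_nonneg_right d6 (Real.sqrt_nonneg (A (Real.sin θ)))
    have e10 : 4 * (N * Real.sqrt (A (Real.sin θ))) * Real.cos θ
        = 4 * (Real.cos θ * N * Real.sqrt (A (Real.sin θ))) := by ring
    have e11 : 2 * (Real.sqrt (A (Real.sin θ)) * (K * (2 * p * SB)))
        = 4 * (p * (K * SB) * Real.sqrt (A (Real.sin θ))) := by ring
    rw [e10, e11]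
    linarith
  have hb' : ∀ θ ∈ Set.Icc (0 : ℝ) (Real.pi / 2),
      0 ≤ K * (2 * p * ∑ l ∈ range i, Bk (2 * p) l θ) := by
    intro θ hθ
    apply mul_nonneg hK0 (mul_nonneg hc0 (Finset.sum_nonneg (fun l _ => Bk_nonneg hc0 hθ.1 l)))
  have h0 : Real.sqrt (A (Real.sin 0)) ≤ K * Bk (2 * p) i 0 := by
    rw [Bk_zero, mul_one, Real.sin_zero]
    apply Real.sqrt_le_iff.mpr
    refine ⟨hK0, ?_⟩
    rw [hA]
    simp only
    have e1 : ∀ z : Fin n, E2 0 (fun x y => g z x ^ 2 * ‖B z (Φ y)‖ ^ 2)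
        = ex (fun x => g z x ^ 2) * ex (fun y => ‖(S k).P z (V k (Φ y))‖ ^ 2) := by
      intro z
      exact E2_zero _ _
    rw [Finset.sum_congr rfl (fun z _ => e1 z)]
    exact hh k hir
  intro θ hθ
  have := sqrt_le_of_deriv (A := fun θ => A (Real.sin θ))
    (A' := fun θ => A' (Real.sin θ) * Real.cos θ) (by positivity) hder2 hb hA0 hineq hb' h0 θ hθ
  rw [hAeq] at this
  exact this

/-- **Sum of quenched weights over a class of coordinates**: the weights of `univ` vanish in the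
first `l₀` rounds, those of `U` vanish after the round `τ`, and `τ < l₀ + w`. -/
theorem sum_al_le (S : ℕ → Sys n p H) (V : ℕ → H →ₗ[ℝ] H) (hV : ∀ k u, ‖V k u‖ ≤ ‖u‖) (φ : H)
    (h : Cube n → ℝ) (K : ℝ) (hK0 : 0 ≤ K) (r : ℕ)
    (hh : ∀ k < r, ∑ j, ex (fun x => dd j h x ^ 2)
      * ex (fun y => ‖(S k).P j (V k (st S V φ k y))‖ ^ 2) ≤ K ^ 2)
    (U : Finset (Fin n)) (l₀ τ w : ℕ) (hτ : τ < l₀ + w)
    (hl₀ : ∀ l < l₀, l < r → ∀ j x u, cf univ h j x • (S l).P j u = 0)
    (hτ' : ∀ l < r, τ < l → ∀ j x u, cf U h j x • (S l).P j u = 0) :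
    ∑ l ∈ range r, al S V φ 1 U h l ≤ K
      * ∑ s ∈ range w, (w.choose (s + 1) : ℝ) * ((Real.pi * p) ^ s / (s.factorial : ℝ)) := by
  have hp0 : 0 ≤ p := (S 0).p_nonneg
  have hc0 : (0 : ℝ) ≤ 2 * p := by positivity
  have hθ : Real.pi / 2 ∈ Set.Icc (0 : ℝ) (Real.pi / 2) := Set.right_mem_Icc.mpr (by positivity)
  have h2 : 2 * p * (Real.pi / 2) = Real.pi * p := by ring
  have hterm : ∀ l ∈ range r, al S V φ 1 U h l
      ≤ if l₀ ≤ l ∧ l ≤ τ then K * Bk (Real.pi * p) (l - l₀) 1 else 0 := by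
    intro l hl
    have hlr := Finset.mem_range.mp hl
    split_ifs with hc
    · refine (al_mono S V φ zero_le_one le_rfl U h l).trans ?_
      have h3 := al_le S V hV φ h K hK0 r hh l₀ hl₀ (l - l₀) (by omega) _ hθ
      rw [Real.sin_pi_div_two, Bk_scale, h2] at h3
      have e : l₀ + (l - l₀) = l := by omega
      rw [e] at h3
      exact h3
    · by_cases h4 : l < l₀
      · refine (al_mono S V φ zero_le_one le_rfl U h l).trans (le_of_eq ?_)
        exact al_zero S V φ 1 univ h l (hl₀ l h4 hlr)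
      · exact le_of_eq (al_zero S V φ 1 U h l (hτ' l hlr (by omega)))
  refine (Finset.sum_le_sum hterm).trans ?_
  rw [← Finset.sum_filter, ← sum_Bk, Finset.mul_sum]
  have hinj : Set.InjOn (fun l => l - l₀) ((range r).filter (fun l => l₀ ≤ l ∧ l ≤ τ) : Finset ℕ) := by
    intro a ha b hb hab
    have ha' := (Finset.mem_filter.mp (Finset.mem_coe.mp ha)).2
    have hb' := (Finset.mem_filter.mp (Finset.mem_coe.mp hb)).2
    simp only at hab
    omega
  have e1 : ∑ l ∈ (range r).filter (fun l => l₀ ≤ l ∧ l ≤ τ), K * Bk (Real.pi * p) (l - l₀) 1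
      = ∑ i ∈ ((range r).filter (fun l => l₀ ≤ l ∧ l ≤ τ)).image (fun l => l - l₀),
        K * Bk (Real.pi * p) i 1 := by
    rw [Finset.sum_image hinj]
  rw [e1]
  apply Finset.sum_le_sum_of_subset_of_nonneg
  · intro i hi
    obtain ⟨l, hl, rfl⟩ := Finset.mem_image.mp hi
    have hl' := (Finset.mem_filter.mp hl).2
    rw [Finset.mem_range]
    omega
  · intro i _ _
    exact mul_nonneg hK0 (Bk_nonneg (by positivity) zero_le_one i)

/-- the annealed weights of a round sum to at most `p` -/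
lemma annealed_le (S : ℕ → Sys n p H) (V : ℕ → H →ₗ[ℝ] H) (hV : ∀ k u, ‖V k u‖ ≤ ‖u‖) (φ : H)
    (c : Fin n → ℝ) (μ : ℝ) (hc : ∀ j, c j ≤ μ ^ 2) (k : ℕ) :
    ∑ j, c j * ex (fun y => ‖(S k).P j (V k (st S V φ k y))‖ ^ 2)
      ≤ (Real.sqrt p * μ * ‖φ‖) ^ 2 := by
  calc ∑ j, c j * ex (fun y => ‖(S k).P j (V k (st S V φ k y))‖ ^ 2)
      ≤ ∑ j, μ ^ 2 * ex (fun y => ‖(S k).P j (V k (st S V φ k y))‖ ^ 2) := by
        apply Finset.sum_le_sum; intro j _
        exact mul_le_mul_of_nonneg_right (hc j) (ex_nonneg (fun y => by positivity))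
    _ = μ ^ 2 * ex (fun y => ∑ j, ‖(S k).P j (V k (st S V φ k y))‖ ^ 2) := by
        rw [← Finset.mul_sum, ex_sum]
    _ ≤ μ ^ 2 * ex (fun _ : Cube n => p * ‖φ‖ ^ 2) := by
        apply mul_le_mul_of_nonneg_left _ (sq_nonneg _)
        apply ex_mono; intro y
        refine ((S k).P_tot _).trans ?_
        apply mul_le_mul_of_nonneg_left _ (S k).p_nonneg
        exact pow_le_pow_left₀ (norm_nonneg _) ((hV _ _).trans (norm_st_le S V hV φ k y)) 2
    _ = (Real.sqrt p * μ * ‖φ‖) ^ 2 := by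
        rw [ex_const, mul_pow, mul_pow, Real.sq_sqrt (S 0).p_nonneg]; ring

end Pool.Agent.QRA
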