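import Mathlib
import Pool.Agent.QRA.Main
import Pool.Agent.Helper24.QW.Mult

/-!
The covariance inequality for query systems whose variables are queried within windows of rounds.
-/

set_option linter.dupNamespace false
set_option linter.unusedSectionVars false

namespace Pool.Agent.QRA

open Finset Pool.Agent.Helper11.Cube
open scoped InnerProductSpace

variable {n : ℕ} {p : ℝ} {H : Type*} [NormedAddCommGroup H] [InnerProductSpace ℝ H]

lemma abs_sum_inner_le {ι : Type} [Fintype ι] {t : ℝ} (h0 : 0 ≤ t) (h1 : t ≤ 1)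
    (F G : ι → Cube n → Cube n → H) :
    |∑ i, E2 t (fun x y => ⟪F i x y, G i x y⟫_ℝ)| ≤ nrm t F * nrm t G := by
  rw [← inner_vec h0 h1, ← norm_vec h0 h1, ← norm_vec h0 h1]
  exact abs_real_inner_le_norm _ _

lemma ex_anti (j : Fin n) (g : Cube n → ℝ) (h : ∀ x, g (fl j x) = - g x) : ex g = 0 := by
  unfold ex
  rw [sum_anti j g h, zero_div]

/-- half of the pairing of the gradients over a set of coordinates -/
lemma half_le (S : ℕ → Sys n p H) (V : ℕ → H →ₗ[ℝ] H) (hV : ∀ k u, ‖V k u‖ ≤ ‖u‖) (φ : H)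
    (r : ℕ) (U : Finset (Fin n)) (h : Cube n → ℝ) (Θ : Cube n → H) (T : ℝ) (hT0 : 0 ≤ T)
    (hΘ : ex (fun x => ‖Θ x‖ ^ 2) ≤ T ^ 2) :
    |∑ j ∈ U, ex (fun x => dd j h x * ⟪dd j (st S V φ r) x, av j Θ x⟫_ℝ)|
      ≤ T * (Real.sqrt p * ∑ l ∈ range r, al S V φ 1 U h l) := by
  have e1 : ∀ j ∈ U, ex (fun x => dd j h x * ⟪dd j (st S V φ r) x, av j Θ x⟫_ℝ)
      = ex (fun x => dd j h x * ⟪dd j (st S V φ r) x, Θ x⟫_ℝ) := by
    intro j _
    have e : (fun x => dd j h x * ⟪dd j (st S V φ r) x, Θ x⟫_ℝ)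
        = fun x => dd j h x * ⟪dd j (st S V φ r) x, av j Θ x⟫_ℝ
          + dd j h x * (sg x j * ⟪dd j (st S V φ r) x, dd j Θ x⟫_ℝ) := by
      funext x
      conv_lhs => rw [eq_av_add j Θ x]
      rw [inner_add_right, real_inner_smul_right]
      ring
    rw [e, ex_add, ex_anti j (fun x => dd j h x * (sg x j * ⟪dd j (st S V φ r) x, dd j Θ x⟫_ℝ)),
      add_zero]
    intro x
    rw [dd_fl, dd_fl, dd_fl, sg_fl_self]; ring
  rw [Finset.sum_congr rfl e1, ← ex_sum]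
  have h2 : ex (fun x => ∑ j ∈ U, dd j h x * ⟪dd j (st S V φ r) x, Θ x⟫_ℝ)
      = ∑ i : Unit, E2 1 (fun x y => ⟪(fun (_ : Unit) => Zf S V φ U h r) i x y, Θ y⟫_ℝ) := by
    simp only [Finset.univ_unique, Finset.sum_singleton]
    rw [E2_one]
    congr 1; funext x
    unfold Zf cf
    rw [sum_inner, ← Finset.sum_subset (Finset.subset_univ U)]
    · apply Finset.sum_congr rfl; intro j hj
      rw [if_pos hj, real_inner_smul_left]
    · intro j _ hj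
      rw [if_neg hj, zero_smul, inner_zero_left]
  rw [h2]
  refine (abs_sum_inner_le zero_le_one le_rfl _ (fun (_ : Unit) _ y => Θ y)).trans ?_
  have h3 : nrm 1 (fun (_ : Unit) (_ : Cube n) y => Θ y) ≤ T := by
    unfold nrm
    simp only [Finset.univ_unique, Finset.sum_singleton]
    rw [E2_one]
    apply Real.sqrt_le_iff.mpr
    exact ⟨hT0, hΘ⟩
  have h4 := nrm_Zf_le S V hV φ zero_le_one le_rfl U h r
  rw [mul_comm]
  exact mul_le_mul h3 h4 (nrm_nonneg _ _) hT0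

/-- **Pairing of gradients over a class of coordinates.** -/
theorem class_bound (S : ℕ → Sys n p H) (V W : ℕ → H →ₗ[ℝ] H) (hV : ∀ k u, ‖V k u‖ ≤ ‖u‖)
    (hW : ∀ k u, ‖W k u‖ ≤ ‖u‖) (φ ψ : H) (A A' : H →ₗ[ℝ] H)
    (hadj : ∀ u v, ⟪u, A v⟫_ℝ = ⟪A' u, v⟫_ℝ) (r : ℕ) (α β : ℝ) (hα0 : 0 ≤ α) (hβ0 : 0 ≤ β)
    (hα : ex (fun x => ‖A (st S W ψ r x)‖ ^ 2) ≤ α ^ 2)
    (hβ : ex (fun x => ‖A' (st S V φ r x)‖ ^ 2) ≤ β ^ 2) (f : Cube n → ℝ)
    (hf : ∀ x, f x = ⟪st S V φ r x, A (st S W ψ r x)⟫_ℝ)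
    (h : Cube n → ℝ) (K L : ℝ) (hK0 : 0 ≤ K) (hL0 : 0 ≤ L)
    (hK : ∀ k < r, ∑ j, ex (fun x => dd j h x ^ 2)
      * ex (fun y => ‖(S k).P j (V k (st S V φ k y))‖ ^ 2) ≤ K ^ 2)
    (hL : ∀ k < r, ∑ j, ex (fun x => dd j h x ^ 2)
      * ex (fun y => ‖(S k).P j (W k (st S W ψ k y))‖ ^ 2) ≤ L ^ 2)
    (U : Finset (Fin n)) (l₀ τ w : ℕ) (hτ : τ < l₀ + w)
    (hl₀ : ∀ l < l₀, l < r → ∀ j x u, cf univ h j x • (S l).P j u = 0)
    (hτ' : ∀ l < r, τ < l → ∀ j x u, cf U h j x • (S l).P j u = 0) :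
    |∑ j ∈ U, ex (fun x => dd j f x * dd j h x)|
      ≤ Real.sqrt p * (K * α + L * β)
        * ∑ s ∈ range w, (w.choose (s + 1) : ℝ) * ((Real.pi * p) ^ s / (s.factorial : ℝ)) := by
  set Φ : Cube n → H := st S V φ r with hΦ
  set Ψ : Cube n → H := st S W ψ r with hΨ
  have h2 : ∀ j x, dd j f x = ⟪dd j Φ x, av j (fun x => A (Ψ x)) x⟫_ℝ
      + ⟪dd j Ψ x, av j (fun x => A' (Φ x)) x⟫_ℝ := by
    intro j x
    have e2 : ⟪dd j Ψ x, av j (fun x => A' (Φ x)) x⟫_ℝ = ⟪av j Φ x, A (dd j Ψ x)⟫_ℝ := by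
      rw [hadj, real_inner_comm]
      congr 1
      unfold av
      rw [map_smul, map_add]
    rw [e2]
    unfold dd av
    rw [hf, hf]
    simp only [smul_eq_mul, map_smul, map_sub, real_inner_smul_left, real_inner_smul_right,
      inner_sub_left, inner_sub_right, inner_add_right, inner_add_left]
    ring
  have h3 : ∑ j ∈ U, ex (fun x => dd j f x * dd j h x)
      = ∑ j ∈ U, ex (fun x => dd j h x * ⟪dd j Φ x, av j (fun x => A (Ψ x)) x⟫_ℝ)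
      + ∑ j ∈ U, ex (fun x => dd j h x * ⟪dd j Ψ x, av j (fun x => A' (Φ x)) x⟫_ℝ) := by
    rw [← Finset.sum_add_distrib]
    apply Finset.sum_congr rfl; intro j _
    rw [← ex_add]
    congr 1; funext x
    rw [h2 j x]
    ring
  have h4 := half_le S V hV φ r U h (fun x => A (Ψ x)) α hα0 hα
  have h5 := half_le S W hW ψ r U h (fun x => A' (Φ x)) β hβ0 hβ
  have h6 := sum_al_le S V hV φ h K hK0 r hK U l₀ τ w hτ hl₀ hτ'
  have h7 := sum_al_le S W hW ψ h L hL0 r hL U l₀ τ w hτ hl₀ hτ'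
  set SB : ℝ := ∑ s ∈ range w,
    (w.choose (s + 1) : ℝ) * ((Real.pi * p) ^ s / (s.factorial : ℝ)) with hSB
  have h8 : α * (Real.sqrt p * ∑ l ∈ range r, al S V φ 1 U h l)
      ≤ α * (Real.sqrt p * (K * SB)) :=
    mul_le_mul_of_nonneg_left (mul_le_mul_of_nonneg_left h6 (Real.sqrt_nonneg _)) hα0
  have h9 : β * (Real.sqrt p * ∑ l ∈ range r, al S W ψ 1 U h l)
      ≤ β * (Real.sqrt p * (L * SB)) :=
    mul_le_mul_of_nonneg_left (mul_le_mul_of_nonneg_left h7 (Real.sqrt_nonneg _)) hβ0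
  rw [h3]
  have e10 : Real.sqrt p * (K * α + L * β) * SB
      = α * (Real.sqrt p * (K * SB)) + β * (Real.sqrt p * (L * SB)) := by
    ring
  rw [e10]
  refine (abs_add_le _ _).trans ?_
  linarith

/-- **Covariance inequality** for windows of rounds. -/
theorem window_cov (S : ℕ → Sys n p H) (V W : ℕ → H →ₗ[ℝ] H) (hV : ∀ k u, ‖V k u‖ ≤ ‖u‖)
    (hW : ∀ k u, ‖W k u‖ ≤ ‖u‖) (φ ψ : H) (A A' : H →ₗ[ℝ] H)
    (hadj : ∀ u v, ⟪u, A v⟫_ℝ = ⟪A' u, v⟫_ℝ) (r : ℕ) (α β : ℝ) (hα0 : 0 ≤ α) (hβ0 : 0 ≤ β)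
    (hα : ex (fun x => ‖A (st S W ψ r x)‖ ^ 2) ≤ α ^ 2)
    (hβ : ex (fun x => ‖A' (st S V φ r x)‖ ^ 2) ≤ β ^ 2) (f : Cube n → ℝ)
    (hf : ∀ x, f x = ⟪st S V φ r x, A (st S W ψ r x)⟫_ℝ)
    (e : Fin n → ℕ) (w : ℕ)
    (hwin : ∀ k < r, ∀ j u, ¬ (k ≤ e j ∧ e j < k + w) → (S k).P j u = 0)
    (g : Cube n → ℝ) (K L : ℝ) (hK0 : 0 ≤ K) (hL0 : 0 ≤ L)
    (hK : ∀ k < r, ∑ j, ex (fun x => dd j g x ^ 2)
      * ex (fun y => ‖(S k).P j (V k (st S V φ k y))‖ ^ 2) ≤ K ^ 2)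
    (hL : ∀ k < r, ∑ j, ex (fun x => dd j g x ^ 2)
      * ex (fun y => ‖(S k).P j (W k (st S W ψ k y))‖ ^ 2) ≤ L ^ 2) :
    |ex (fun x => f x * g x) - ex f * ex g|
      ≤ (univ.image e).card * (Real.sqrt p * (K * α + L * β)
        * ∑ s ∈ range w, (w.choose (s + 1) : ℝ) * ((Real.pi * p) ^ s / (s.factorial : ℝ))) := by
  rw [Pool.Agent.Helper24.QW.cov_eq e f g]
  refine (Finset.abs_sum_le_sum_abs _ _).trans ?_
  rw [← nsmul_eq_mul]
  apply Finset.sum_le_card_nsmul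
  intro τ _
  have hmono : ∀ (V : ℕ → H →ₗ[ℝ] H) (φ : H) (k : ℕ),
      ∑ j, ex (fun x => dd j (Pool.Agent.Helper24.QW.Hf e τ g) x ^ 2)
        * ex (fun y => ‖(S k).P j (V k (st S V φ k y))‖ ^ 2)
      ≤ ∑ j, ex (fun x => dd j g x ^ 2)
        * ex (fun y => ‖(S k).P j (V k (st S V φ k y))‖ ^ 2) := by
    intro V φ k
    apply Finset.sum_le_sum; intro j _
    exact mul_le_mul_of_nonneg_right (Pool.Agent.Helper24.QW.dd_Hf_sq_le e τ g j)
      (ex_nonneg (fun y => by positivity))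
  refine class_bound S V W hV hW φ ψ A A' hadj r α β hα0 hβ0 hα hβ f hf
    (Pool.Agent.Helper24.QW.Hf e τ g) K L hK0 hL0 (fun k hk => (hmono V φ k).trans (hK k hk))
    (fun k hk => (hmono W ψ k).trans (hL k hk)) _ (τ + 1 - w) τ w (by omega) ?_ ?_
  · intro l hl hlr j x u
    by_cases hj : e j < τ
    · unfold cf
      rw [if_pos (mem_univ j), Pool.Agent.Helper24.QW.dd_Hf_zero g hj, zero_smul]
    · rw [hwin l hlr j u (by omega), smul_zero]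
  · intro l hlr hl j x u
    by_cases hj : e j = τ
    · rw [hwin l hlr j u (by omega), smul_zero]
    · unfold cf
      rw [if_neg, zero_smul]
      intro hj'
      exact hj (Finset.mem_filter.mp hj').2

end Pool.Agent.QRA
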