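import Mathlib
import Pool.Agent.QRA.Final

/-!
The concrete model: amplitudes indexed by a finite set `Q`, parallel phase queries.
-/

set_option linter.dupNamespace false
set_option linter.unusedSectionVars false

namespace Pool.Agent.QRA

open Finset Pool.Agent.Helper11.Cube Pool.Agent.Helper11.AA
open scoped InnerProductSpace

/-- Euclidean norm of a vector of amplitudes. -/
noncomputable def l2 {Q : Type} [Fintype Q] (u : Q → ℂ) : ℝ := Real.sqrt (∑ a, ‖u a‖ ^ 2)

/-- `V` does not increase the Euclidean norm (for instance `V` unitary, or a projection). -/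
def Contraction {Q : Type} [Fintype Q] (V : Matrix Q Q ℂ) : Prop :=
  ∀ u : Q → ℂ, l2 (V.mulVec u) ≤ l2 u

/-- `A` is Hermitian with `‖A u‖² ≤ ⟨u, A u⟩` for all `u`, i.e. with eigenvalues in `[0,1]` (for
instance an orthogonal projection, or a diagonal matrix of payoffs in `[0,1]`). -/
def Effect {Q : Type} [Fintype Q] (A : Matrix Q Q ℂ) : Prop :=
  A.conjTranspose = A ∧
    ∀ u : Q → ℂ, l2 (A.mulVec u) ^ 2 ≤ (∑ a, star (u a) * (A.mulVec u) a).re

/-- Parallel phase query: the basis state `a` is multiplied by `x^{S_a} = ∏_{i ∈ S_a} x_i`. -/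
def query {n : ℕ} {Q : Type} (S : Q → Finset (Fin n)) (x : Fin n → ℤˣ) (u : Q → ℂ) : Q → ℂ :=
  fun a => (∏ i ∈ S a, ((x i : ℤ) : ℂ)) * u a

/-- The state after `k` rounds on input `x`; round `k` (`k = 0, 1, ...`) applies `V k` and then the
query with the sets `S k`. -/
def state {n : ℕ} {Q : Type} [Fintype Q] (S : ℕ → Q → Finset (Fin n)) (V : ℕ → Matrix Q Q ℂ)
    (φ : Q → ℂ) : ℕ → (Fin n → ℤˣ) → (Q → ℂ)
  | 0, _ => φ
  | k + 1, x => query (S k) x ((V k).mulVec (state S V φ k x))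

/-- Mean query weight of the coordinate `j` in round `k`: the mean over the inputs `x` of the
squared Euclidean norm of the entries `a` with `j ∈ S k a` of the state before the query. -/
noncomputable def queryWeight {n : ℕ} {Q : Type} [Fintype Q] (S : ℕ → Q → Finset (Fin n))
    (V : ℕ → Matrix Q Q ℂ) (φ : Q → ℂ) (k : ℕ) (j : Fin n) : ℝ :=
  ex (fun x => ∑ a, if j ∈ S k a then ‖((V k).mulVec (state S V φ k x)) a‖ ^ 2 else 0)

section
variable {n : ℕ} {Q : Type} [Fintype Q]

abbrev HQ (Q : Type) [Fintype Q] := EuclideanSpace ℂ Q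

lemma norm_toLp (u : Q → ℂ) : ‖(WithLp.toLp 2 u : HQ Q)‖ = l2 u := by
  rw [EuclideanSpace.norm_eq]
  rfl

lemma norm_sq_eq (u : HQ Q) : ‖u‖ ^ 2 = ∑ a, ‖u a‖ ^ 2 := by
  rw [EuclideanSpace.norm_eq, Real.sq_sqrt (Finset.sum_nonneg (fun a _ => by positivity))]

/-- matrices as real linear maps -/
noncomputable def ml (V : Matrix Q Q ℂ) : HQ Q →ₗ[ℝ] HQ Q where
  toFun u := WithLp.toLp 2 (V.mulVec (WithLp.ofLp u))
  map_add' u v := by
    rw [WithLp.ofLp_add, Matrix.mulVec_add]; rfl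
  map_smul' c u := by
    ext a
    simp only [RingHom.id_apply, PiLp.smul_apply, Matrix.mulVec, dotProduct]
    rw [Finset.smul_sum]
    apply Finset.sum_congr rfl; intro b _
    exact mul_smul_comm c _ _

lemma ml_apply (V : Matrix Q Q ℂ) (u : HQ Q) :
    ml V u = WithLp.toLp 2 (V.mulVec (WithLp.ofLp u)) := rfl

lemma norm_ml_le {V : Matrix Q Q ℂ} (hV : Contraction V) (u : HQ Q) : ‖ml V u‖ ≤ ‖u‖ := by
  rw [ml_apply, norm_toLp]
  refine (hV _).trans (le_of_eq ?_)
  rw [← norm_toLp]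

/-- the query operator -/
noncomputable def Oq (S : Q → Finset (Fin n)) (x : Cube n) : HQ Q →ₗ[ℝ] HQ Q where
  toFun u := WithLp.toLp 2 (query S x (WithLp.ofLp u))
  map_add' u v := by
    ext a
    simp [query, mul_add]
  map_smul' c u := by
    ext a
    simp only [query, RingHom.id_apply, PiLp.smul_apply]
    exact mul_smul_comm c _ _

/-- projection on the basis states querying `j` -/
noncomputable def Pq (S : Q → Finset (Fin n)) (j : Fin n) : HQ Q →ₗ[ℝ] HQ Q where
  toFun u := WithLp.toLp 2 (fun a => if j ∈ S a then u a else 0)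
  map_add' u v := by
    ext a
    by_cases h : j ∈ S a <;> simp [h]
  map_smul' c u := by
    ext a
    by_cases h : j ∈ S a <;> simp [h]

lemma Oq_apply (S : Q → Finset (Fin n)) (x : Cube n) (u : HQ Q) (a : Q) :
    Oq S x u a = (∏ i ∈ S a, ((x i : ℤ) : ℂ)) * u a := rfl

lemma Pq_apply (S : Q → Finset (Fin n)) (j : Fin n) (u : HQ Q) (a : Q) :
    Pq S j u a = if j ∈ S a then u a else 0 := rfl

lemma norm_phase (S : Q → Finset (Fin n)) (x : Cube n) (a : Q) :
    ‖∏ i ∈ S a, ((x i : ℤ) : ℂ)‖ = 1 := by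
  rw [norm_prod]
  apply Finset.prod_eq_one
  intro i _
  rcases Int.units_eq_one_or (x i) with h | h <;> simp [h]

lemma phase_fl (S : Q → Finset (Fin n)) (x : Cube n) (j : Fin n) (a : Q) :
    ∏ i ∈ S a, ((fl j x i : ℤ) : ℂ) = (if j ∈ S a then -1 else 1) * ∏ i ∈ S a, ((x i : ℤ) : ℂ) := by
  split_ifs with h
  · rw [← Finset.mul_prod_erase _ _ h, ← Finset.mul_prod_erase (S a) (fun i => ((x i : ℤ) : ℂ)) h]
    have h1 : ((fl j x j : ℤ) : ℂ) = - ((x j : ℤ) : ℂ) := by
      unfold fl flipOn; simp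
    have h2 : ∏ i ∈ (S a).erase j, ((fl j x i : ℤ) : ℂ) = ∏ i ∈ (S a).erase j, ((x i : ℤ) : ℂ) := by
      apply Finset.prod_congr rfl; intro i hi
      have : fl j x i = x i := by
        unfold fl flipOn; simp [Finset.ne_of_mem_erase hi]
      rw [this]
    rw [h1, h2]; ring
  · rw [one_mul]
    apply Finset.prod_congr rfl; intro i hi
    have : fl j x i = x i := by
      have hne : i ≠ j := fun e => h (e ▸ hi)
      unfold fl flipOn; simp [hne]
    rw [this]

/-- the concrete query system -/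
noncomputable def sysQ (S : Q → Finset (Fin n)) (p : ℕ) (hS : ∀ a, (S a).card ≤ p) :
    Sys n (p : ℝ) (HQ Q) where
  O := Oq S
  P := Pq S
  O_norm x u := by
    apply le_of_sq_le_sq _ (norm_nonneg _)
    rw [norm_sq_eq, norm_sq_eq]
    apply le_of_eq
    apply Finset.sum_congr rfl; intro a _
    rw [Oq_apply, norm_mul, norm_phase, one_mul]
  O_diff j x u := by
    ext a
    rw [PiLp.sub_apply, PiLp.smul_apply, Pq_apply, Oq_apply, Oq_apply, phase_fl]
    split_ifs
    · rw [Complex.real_smul]; push_cast; ring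
    · simp
  P_norm j u := by
    apply le_of_sq_le_sq _ (norm_nonneg _)
    rw [norm_sq_eq, norm_sq_eq]
    apply Finset.sum_le_sum; intro a _
    rw [Pq_apply]
    split_ifs
    · exact le_rfl
    · simp
  PO_norm j x u := by
    have h : ‖Pq S j (Oq S x u)‖ ^ 2 = ‖Pq S j u‖ ^ 2 := by
      rw [norm_sq_eq, norm_sq_eq]
      apply Finset.sum_congr rfl; intro a _
      rw [Pq_apply, Pq_apply]
      split_ifs
      · rw [Oq_apply, norm_mul, norm_phase, one_mul]
      · rfl
    exact (sq_eq_sq₀ (norm_nonneg _) (norm_nonneg _)).mp h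
  P_sum c u := by
    rw [norm_sq_eq]
    have h1 : ∀ a, ‖(∑ j, c j • Pq S j (u j)) a‖ ^ 2
        ≤ ∑ j, (p : ℝ) * (c j ^ 2 * ‖Pq S j (u j) a‖ ^ 2) := by
      intro a
      have e : (∑ j, c j • Pq S j (u j)) a = ∑ j ∈ S a, c j • u j a := by
        have : (∑ j, c j • Pq S j (u j)) a = ∑ j, (c j • Pq S j (u j)) a := by
          simp [WithLp.ofLp_sum, Finset.sum_apply]
        rw [this, ← Finset.sum_subset (Finset.subset_univ (S a))]
        · apply Finset.sum_congr rfl; intro j hj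
          rw [PiLp.smul_apply, Pq_apply, if_pos hj]
        · intro j _ hj
          rw [PiLp.smul_apply, Pq_apply, if_neg hj, smul_zero]
      rw [e]
      calc ‖∑ j ∈ S a, c j • u j a‖ ^ 2 ≤ (∑ j ∈ S a, ‖c j • u j a‖) ^ 2 :=
            pow_le_pow_left₀ (norm_nonneg _) (norm_sum_le _ _) 2
        _ ≤ ((S a).card : ℝ) * ∑ j ∈ S a, ‖c j • u j a‖ ^ 2 := sq_sum_le_card_mul_sum_sq
        _ ≤ (p : ℝ) * ∑ j ∈ S a, ‖c j • u j a‖ ^ 2 := by
            apply mul_le_mul_of_nonneg_right _ (Finset.sum_nonneg (fun j _ => by positivity))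
            exact_mod_cast hS a
        _ = ∑ j, (p : ℝ) * (c j ^ 2 * ‖Pq S j (u j) a‖ ^ 2) := by
            rw [Finset.mul_sum, ← Finset.sum_subset (Finset.subset_univ (S a))]
            · apply Finset.sum_congr rfl; intro j hj
              rw [Pq_apply, if_pos hj, norm_smul, mul_pow, Real.norm_eq_abs, sq_abs]
            · intro j _ hj
              rw [Pq_apply, if_neg hj]; simp
    refine (Finset.sum_le_sum (fun a _ => h1 a)).trans (le_of_eq ?_)
    rw [Finset.sum_comm, Finset.mul_sum]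
    apply Finset.sum_congr rfl; intro j _
    rw [norm_sq_eq, Finset.mul_sum, Finset.mul_sum]
  P_tot u := by
    simp_rw [norm_sq_eq]
    rw [Finset.sum_comm, Finset.mul_sum]
    apply Finset.sum_le_sum; intro a _
    have h : ∑ j, ‖Pq S j u a‖ ^ 2 = ((S a).card : ℝ) * ‖u a‖ ^ 2 := by
      rw [← Finset.sum_subset (Finset.subset_univ (S a))]
      · rw [Finset.sum_congr rfl (g := fun _ => ‖u a‖ ^ 2) (fun j hj => by
          rw [Pq_apply, if_pos hj]), Finset.sum_const, nsmul_eq_mul]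
      · intro j _ hj
        rw [Pq_apply, if_neg hj]; simp
    rw [h]
    apply mul_le_mul_of_nonneg_right _ (sq_nonneg _)
    exact_mod_cast hS a
  p_nonneg := Nat.cast_nonneg p

/-- the sequence of concrete query systems -/
noncomputable def sysN (S : ℕ → Q → Finset (Fin n)) (p : ℕ) (hS : ∀ k a, (S k a).card ≤ p) :
    ℕ → Sys n (p : ℝ) (HQ Q) :=
  fun k => sysQ (S k) p (hS k)

lemma state_eq (S : ℕ → Q → Finset (Fin n)) (p : ℕ) (hS : ∀ k a, (S k a).card ≤ p)
    (V : ℕ → Matrix Q Q ℂ) (φ : Q → ℂ) (k : ℕ) (x : Cube n) :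
    st (sysN S p hS) (fun k => ml (V k)) (WithLp.toLp 2 φ) k x
      = WithLp.toLp 2 (state S V φ k x) := by
  induction k with
  | zero => rfl
  | succ k ih =>
    change Oq (S k) x (ml (V k) (st (sysN S p hS) (fun k => ml (V k)) (WithLp.toLp 2 φ) k x)) = _
    rw [ih]
    rfl

lemma annealed_eq (S : ℕ → Q → Finset (Fin n)) (p : ℕ) (hS : ∀ k a, (S k a).card ≤ p)
    (V : ℕ → Matrix Q Q ℂ) (φ : Q → ℂ) (k : ℕ) (j : Fin n) :
    ex (fun y => ‖(sysN S p hS k).P j (ml (V k)
        (st (sysN S p hS) (fun k => ml (V k)) (WithLp.toLp 2 φ) k y))‖ ^ 2)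
      = queryWeight S V φ k j := by
  unfold queryWeight
  congr 1; funext y
  rw [state_eq]
  change ‖Pq (S k) j (ml (V k) (WithLp.toLp 2 (state S V φ k y)))‖ ^ 2 = _
  rw [norm_sq_eq]
  apply Finset.sum_congr rfl; intro a _
  rw [Pq_apply]
  split_ifs
  · rfl
  · simp

/-- a variable outside all query sets of a round has no query operator -/
lemma P_eq_zero (S : ℕ → Q → Finset (Fin n)) (p : ℕ) (hS : ∀ k a, (S k a).card ≤ p) (k : ℕ)
    (j : Fin n) (h : ∀ a, j ∉ S k a) (u : HQ Q) : (sysN S p hS k).P j u = 0 := by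
  change Pq (S k) j u = 0
  ext a
  rw [Pq_apply, if_neg (h a)]
  rfl

lemma inner_eq (u v : HQ Q) : ⟪u, v⟫_ℝ = (∑ a, star (u a) * v a).re := by
  rw [PiLp.inner_apply, Complex.re_sum]
  apply Finset.sum_congr rfl; intro a _
  rw [Complex.inner, mul_comm]
  rfl

lemma adj (A : Matrix Q Q ℂ) (u v : HQ Q) : ⟪u, ml A v⟫_ℝ = ⟪ml A.conjTranspose u, v⟫_ℝ := by
  rw [inner_eq, inner_eq]
  congr 1
  have e1 : ∑ a, star (u a) * (ml A v) a = ∑ a, ∑ b, star (u a) * (A a b * v b) := by
    apply Finset.sum_congr rfl; intro a _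
    rw [ml_apply]
    simp only [Matrix.mulVec, dotProduct]
    rw [Finset.mul_sum]
  have e2 : ∑ a, star ((ml A.conjTranspose u) a) * v a
      = ∑ a, ∑ b, star (u b) * (A b a * v a) := by
    apply Finset.sum_congr rfl; intro a _
    rw [ml_apply]
    simp only [Matrix.mulVec, dotProduct, Matrix.conjTranspose_apply, star_sum, star_mul',
      star_star]
    rw [Finset.sum_mul]
    apply Finset.sum_congr rfl; intro b _
    ring
  rw [e1, e2, Finset.sum_comm]

lemma contraction_conjTranspose {A : Matrix Q Q ℂ} (hA : Contraction A) (u : HQ Q) :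
    ‖ml A.conjTranspose u‖ ≤ ‖u‖ := by
  have h1 : ‖ml A.conjTranspose u‖ ^ 2 ≤ ‖u‖ * ‖ml A.conjTranspose u‖ := by
    rw [← real_inner_self_eq_norm_sq, ← adj]
    refine (real_inner_le_norm _ _).trans ?_
    exact mul_le_mul_of_nonneg_left (norm_ml_le hA _) (norm_nonneg _)
  by_contra hlt
  push Not at hlt
  have h2 : 0 < ‖ml A.conjTranspose u‖ := lt_of_le_of_lt (norm_nonneg _) hlt
  nlinarith

end

end Pool.Agent.QRA
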