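import Mathlib
import Pool.Agent.QRA.Model
import Pool.Agent.Helper11.Degree

/-!
Degree of the acceptance probability and a closed form for the bound.
-/

set_option linter.dupNamespace false
set_option linter.unusedSectionVars false

namespace Pool.Agent.QRA

open Finset Pool.Agent.Helper11.Cube Pool.Agent.Helper11.AA

lemma sum_le_exp (r : ℕ) {y : ℝ} (hy : 0 ≤ y) :
    ∑ s ∈ range r, (r.choose (s + 1) : ℝ) * (y ^ s / (s.factorial : ℝ))
      ≤ r * Real.exp (2 * Real.sqrt (r * y)) := by
  set z : ℝ := Real.sqrt (r * y) with hz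
  have hz0 : 0 ≤ z := Real.sqrt_nonneg _
  have hzsq : z ^ 2 = r * y := Real.sq_sqrt (by positivity)
  have h1 : ∀ s ∈ range r, (r.choose (s + 1) : ℝ) * (y ^ s / (s.factorial : ℝ))
      ≤ r * ((z ^ s / (s.factorial : ℝ)) * (z ^ s / (s.factorial : ℝ))) := by
    intro s _
    have h2 : (r.choose (s + 1) : ℝ) ≤ (r : ℝ) ^ (s + 1) / ((s + 1).factorial : ℝ) :=
      Nat.choose_le_pow_div (s + 1) r
    have h3 : (r : ℝ) ^ (s + 1) / ((s + 1).factorial : ℝ) ≤ (r : ℝ) ^ (s + 1) / (s.factorial : ℝ) := by
      apply div_le_div_of_nonneg_left (by positivity) (by positivity)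
      exact_mod_cast Nat.factorial_le (Nat.le_succ s)
    calc (r.choose (s + 1) : ℝ) * (y ^ s / (s.factorial : ℝ))
        ≤ (r : ℝ) ^ (s + 1) / (s.factorial : ℝ) * (y ^ s / (s.factorial : ℝ)) :=
          mul_le_mul_of_nonneg_right (h2.trans h3) (by positivity)
      _ = r * ((z ^ s / (s.factorial : ℝ)) * (z ^ s / (s.factorial : ℝ))) := by
          have h4 : z ^ s * z ^ s = (r : ℝ) ^ s * y ^ s := by
            rw [← mul_pow, ← mul_pow, ← hzsq, sq]
          have h5 : (z ^ s / (s.factorial : ℝ)) * (z ^ s / (s.factorial : ℝ))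
              = (z ^ s * z ^ s) / ((s.factorial : ℝ) * (s.factorial : ℝ)) := by
            rw [div_mul_div_comm]
          rw [h5, h4]
          have h6 : (s.factorial : ℝ) ≠ 0 := by positivity
          field_simp
          ring
  refine (Finset.sum_le_sum h1).trans ?_
  rw [← Finset.mul_sum]
  apply mul_le_mul_of_nonneg_left _ (Nat.cast_nonneg r)
  have h7 : ∑ s ∈ range r, z ^ s / (s.factorial : ℝ) ≤ Real.exp z :=
    Real.sum_le_exp_of_nonneg hz0 r
  have h8 : ∀ s ∈ range r, 0 ≤ z ^ s / (s.factorial : ℝ) := fun s _ => by positivity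
  have h9 : ∀ s ∈ range r, z ^ s / (s.factorial : ℝ) ≤ Real.exp z := by
    intro s hs
    exact (Finset.single_le_sum h8 hs).trans h7
  calc ∑ s ∈ range r, (z ^ s / (s.factorial : ℝ)) * (z ^ s / (s.factorial : ℝ))
      ≤ ∑ s ∈ range r, Real.exp z * (z ^ s / (s.factorial : ℝ)) := by
        apply Finset.sum_le_sum; intro s hs
        exact mul_le_mul_of_nonneg_right (h9 s hs) (h8 s hs)
    _ = Real.exp z * ∑ s ∈ range r, z ^ s / (s.factorial : ℝ) := by rw [Finset.mul_sum]
    _ ≤ Real.exp z * Real.exp z := mul_le_mul_of_nonneg_left h7 (Real.exp_pos z).le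
    _ = Real.exp (2 * z) := by rw [← Real.exp_add]; ring_nf

variable {n : ℕ} {Q : Type} [Fintype Q]

lemma degLE_sub {d : ℕ} {f g : Cube n → ℝ} (hf : DegLE f d) (hg : DegLE g d) :
    DegLE (fun x => f x - g x) d := by
  have h : (fun x => f x - g x) = fun x => f x + (-1) * g x := by funext x; ring
  rw [h]
  exact degLE_add hf (degLE_const_mul _ hg)

lemma degLE_mulVec (A : Matrix Q Q ℂ) (F : Cube n → Q → ℂ) (m : ℕ)
    (h : ∀ a, DegLE (fun x => (F x a).re) m ∧ DegLE (fun x => (F x a).im) m) (a : Q) :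
    DegLE (fun x => ((A.mulVec (F x)) a).re) m ∧ DegLE (fun x => ((A.mulVec (F x)) a).im) m := by
  constructor
  · have e : (fun x => ((A.mulVec (F x)) a).re)
        = fun x => ∑ b, ((A a b).re * (F x b).re - (A a b).im * (F x b).im) := by
      funext x
      simp only [Matrix.mulVec, dotProduct, Complex.re_sum, Complex.mul_re]
    rw [e]
    apply degLE_sum; intro b _
    exact degLE_sub (degLE_const_mul _ (h b).1) (degLE_const_mul _ (h b).2)
  · have e : (fun x => ((A.mulVec (F x)) a).im)
        = fun x => ∑ b, ((A a b).re * (F x b).im + (A a b).im * (F x b).re) := by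
      funext x
      simp only [Matrix.mulVec, dotProduct, Complex.im_sum, Complex.mul_im]
    rw [e]
    apply degLE_sum; intro b _
    exact degLE_add (degLE_const_mul _ (h b).2) (degLE_const_mul _ (h b).1)

lemma degLE_state (S : ℕ → Q → Finset (Fin n)) (p : ℕ) (hS : ∀ k a, (S k a).card ≤ p)
    (V : ℕ → Matrix Q Q ℂ) (φ : Q → ℂ) (k : ℕ) : ∀ a,
    DegLE (fun x => (state S V φ k x a).re) (p * k) ∧
      DegLE (fun x => (state S V φ k x a).im) (p * k) := by
  induction k with
  | zero =>
    intro a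
    exact ⟨degLE_const (n := n) (d := p * 0) (φ a).re, degLE_const (n := n) (d := p * 0) (φ a).im⟩
  | succ k ih =>
    intro a
    have h := degLE_mulVec (V k) (fun x => state S V φ k x) (p * k) ih a
    have hc : DegLE (chi (S k a) : Cube n → ℝ) p := degLE_mono (degLE_chi (S k a)) (hS k a)
    have hph : ∀ x : Cube n, (∏ i ∈ S k a, ((x i : ℤ) : ℂ)) = ((chi (S k a) x : ℝ) : ℂ) := by
      intro x
      unfold chi
      push_cast
      rfl
    have e : p * (k + 1) = p + p * k := by ring
    rw [e]
    constructor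
    · have e1 : (fun x => (state S V φ (k + 1) x a).re)
          = fun x => chi (S k a) x * (((V k).mulVec (state S V φ k x)) a).re := by
        funext x
        show ((∏ i ∈ S k a, ((x i : ℤ) : ℂ)) * ((V k).mulVec (state S V φ k x)) a).re = _
        rw [hph, Complex.re_ofReal_mul]
      rw [e1]
      exact degLE_mul hc h.1
    · have e1 : (fun x => (state S V φ (k + 1) x a).im)
          = fun x => chi (S k a) x * (((V k).mulVec (state S V φ k x)) a).im := by
        funext x
        show ((∏ i ∈ S k a, ((x i : ℤ) : ℂ)) * ((V k).mulVec (state S V φ k x)) a).im = _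
        rw [hph, Complex.im_ofReal_mul]
      rw [e1]
      exact degLE_mul hc h.2

lemma degLE_accept (S : ℕ → Q → Finset (Fin n)) (p : ℕ) (hS : ∀ k a, (S k a).card ≤ p)
    (V W : ℕ → Matrix Q Q ℂ) (φ ψ : Q → ℂ) (A : Matrix Q Q ℂ) (r : ℕ) :
    DegLE (fun x => (∑ a, star (state S V φ r x a) * (A.mulVec (state S W ψ r x)) a).re)
      (2 * p * r) := by
  have h1 := degLE_state S p hS V φ r
  have h2 := degLE_mulVec A (fun x => state S W ψ r x) (p * r) (degLE_state S p hS W ψ r)
  have e : (fun x => (∑ a, star (state S V φ r x a) * (A.mulVec (state S W ψ r x)) a).re)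
      = fun x => ∑ a, ((state S V φ r x a).re * ((A.mulVec (state S W ψ r x)) a).re
        + (state S V φ r x a).im * ((A.mulVec (state S W ψ r x)) a).im) := by
    funext x
    rw [Complex.re_sum]
    apply Finset.sum_congr rfl; intro a _
    rw [Complex.mul_re]
    simp
  rw [e]
  have e2 : 2 * p * r = p * r + p * r := by ring
  rw [e2]
  apply degLE_sum; intro a _
  exact degLE_add (degLE_mul (h1 a).1 (h2 a).1) (degLE_mul (h1 a).2 (h2 a).2)

end Pool.Agent.QRA
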